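import Pool.Agent.Helper68.RAC1.Sail

/-!
# The parameters of the classes of threads

`R = F_(2D+2)`, `c = F_(2D)`, `A = L_(2(D-k)+1) = lo (D - k)`, `B = L_(2k+1) = lo k`,
`t₀ = F_(2k+1)`, `s₀ = F_(2(D-k)+1)` for `D < 2 k` and `k + 2 ≤ D`.
-/

set_option autoImplicit false

namespace Pool.Agent.Helper68.RAC1

variable {D k : ℕ}

theorem par_c_pos (h1 : D < 2 * k) (h2 : k + 2 ≤ D) : 0 < (Nat.fib (2 * D) : ℤ) := by
  have := Nat.fib_pos.2 (show 0 < 2 * D by omega)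
  exact_mod_cast this

theorem par_c_lt (D : ℕ) : (Nat.fib (2 * D) : ℤ) < Nat.fib (2 * D + 2) := by
  rw [fib_two]
  have := Nat.fib_pos.2 (show 0 < 2 * D + 1 by omega)
  have h2 : (0 : ℤ) < Nat.fib (2 * D + 1) := by exact_mod_cast this
  linarith

theorem par_dvd_sq (D : ℕ) :
    (Nat.fib (2 * D + 2) : ℤ) ∣ (Nat.fib (2 * D) : ℤ) * Nat.fib (2 * D) - 1 := by
  have h := cassini D
  refine ⟨2 * (Nat.fib (2 * D) : ℤ) - Nat.fib (2 * D + 1), ?_⟩
  rw [fib_two]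
  linear_combination h

theorem par_A (h1 : D < 2 * k) (h2 : k + 2 ≤ D) : 4 < lo (D - k) := by
  have := eleven_le_lo (show 2 ≤ D - k by omega)
  linarith

theorem par_AB (h1 : D < 2 * k) (h2 : k + 2 ≤ D) : lo (D - k) < lo k :=
  lo_strictMono (by omega)

theorem par_ABc (h1 : D < 2 * k) (h2 : k + 2 ≤ D) :
    lo (D - k) * ((Nat.fib (2 * D + 2) : ℤ) + 1) <
      lo k * Nat.fib (2 * D) + 2 * Nat.fib (2 * D + 2) := by
  have hR := RR_pos D
  obtain ⟨k', rfl⟩ : ∃ k', k = k' + 1 := ⟨k - 1, by omega⟩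
  have e1 := phi_vv_left (D := D) (k := k' + 1) (j := 0) (by omega) (by omega)
  rw [vv_zero, Nat.sub_zero] at e1
  unfold phi RR at e1
  simp only at e1
  have e2 := lo_succ' k'
  have e3 : lo (D - (k' + 1)) ≤ lo k' := lo_strictMono.monotone (by omega)
  unfold RR at hR
  have e4 := fib_two D
  have key : lo (k' + 1) * (Nat.fib (2 * D) : ℤ) + 2 * Nat.fib (2 * D + 2) -
      lo (D - (k' + 1)) * ((Nat.fib (2 * D + 2) : ℤ) + 1) =
      (Nat.fib (2 * D + 2) : ℤ) * (lo k' + 2 - lo (D - (k' + 1))) := by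
    linear_combination (Nat.fib (2 * D + 2) : ℤ) * e2 - e1 - lo (k' + 1) * e4
  have h5 : 0 < (Nat.fib (2 * D + 2) : ℤ) * (lo k' + 2 - lo (D - (k' + 1))) :=
    mul_pos hR (by linarith)
  linarith

/-- the unique minimum, in terms of `t = f.1` and `s = -f.2` -/
theorem par_min (h1 : D < 2 * k) (h2 : k + 2 ≤ D) {t s : ℤ} (ht : 0 ≤ t) (hs : 0 ≤ s)
    (h0 : ¬ (t = 0 ∧ s = 0)) (hd : (Nat.fib (2 * D + 2) : ℤ) ∣ t + (Nat.fib (2 * D) : ℤ) * s) :
    2 * (Nat.fib (2 * D + 2) : ℤ) ≤ lo (D - k) * t + lo k * s ∧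
      (lo (D - k) * t + lo k * s = 2 * (Nat.fib (2 * D + 2) : ℤ) →
        t = Nat.fib (2 * k + 1) ∧ s = Nat.fib (2 * (D - k) + 1)) := by
  have hR := RR_pos D
  have hL : InL D (t, -s) := by
    unfold InL RR
    simp only
    have e : t - (Nat.fib (2 * D) : ℤ) * -s = t + (Nat.fib (2 * D) : ℤ) * s := by ring
    rw [e]
    exact hd
  have hne : ((t, -s) : ℤ × ℤ) ≠ 0 := by
    intro h
    rw [Prod.ext_iff] at h
    simp only [Prod.fst_zero, Prod.snd_zero] at h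
    exact h0 ⟨h.1, by linarith [h.2]⟩
  have e : phi D k (t, -s) = lo (D - k) * t + lo k * s := by
    unfold phi
    ring
  have h3 := phi_min_closed (D := D) (k := k) (by omega) (by omega) hL ht (by simpa using hs) hne
  rw [e] at h3
  unfold RR at h3 hR
  rcases h3 with h3 | h3
  · unfold vv at h3
    rw [Prod.mk.injEq] at h3
    have h4 := phi_vv_self (D := D) (k := k) (by omega)
    unfold vv at h4
    rw [← h3.1, ← h3.2, e] at h4
    unfold RR at h4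
    exact ⟨h4.ge, fun _ => ⟨h3.1, by linarith [h3.2]⟩⟩
  · exact ⟨by linarith, fun h => absurd h (by linarith)⟩

theorem par_t_pos (k : ℕ) : 0 < (Nat.fib (2 * k + 1) : ℤ) := vv_fst_pos 0 k

theorem par_t_lt (h1 : D < 2 * k) (h2 : k + 2 ≤ D) :
    (Nat.fib (2 * k + 1) : ℤ) < Nat.fib (2 * D + 2) := by
  have := fib_two_lt (show k + 1 ≤ D by omega)
  have := par_t_pos k
  linarith

theorem par_s_lt (h1 : D < 2 * k) (h2 : k + 2 ≤ D) :
    (Nat.fib (2 * (D - k) + 1) : ℤ) < Nat.fib (2 * D + 2) := by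
  have := fib_two_lt (show D - k + 1 ≤ D by omega)
  have := par_t_pos (D - k)
  linarith

theorem par_dvd (h2 : k ≤ D) : (Nat.fib (2 * D + 2) : ℤ) ∣
    (Nat.fib (2 * k + 1) : ℤ) + (Nat.fib (2 * D) : ℤ) * Nat.fib (2 * (D - k) + 1) := by
  have h := inL_vv h2
  unfold InL RR vv at h
  simp only at h
  have e : (Nat.fib (2 * k + 1) : ℤ) - (Nat.fib (2 * D) : ℤ) * -(Nat.fib (2 * (D - k) + 1) : ℤ) =
      (Nat.fib (2 * k + 1) : ℤ) + (Nat.fib (2 * D) : ℤ) * Nat.fib (2 * (D - k) + 1) := by ring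
  rwa [e] at h

theorem par_eq (h2 : k ≤ D) : lo (D - k) * (Nat.fib (2 * k + 1) : ℤ) +
    lo k * Nat.fib (2 * (D - k) + 1) = 2 * (Nat.fib (2 * D + 2) : ℤ) := by
  have h := phi_vv_self h2
  unfold phi RR vv at h
  simp only at h
  linarith

end Pool.Agent.Helper68.RAC1
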