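import Mathlib

/-!
# The Fibonacci lattice: minimal vectors and walks

`RR D = F_(2D+2)`, the lattice `L = {(x, y) : x = F_(2D) y mod F_(2D+2)}`, the vectors
`vv D j = (F_(2j+1), -F_(2(D-j)+1))` (vertices of the sail of `L` in the fourth quadrant) and the
linear functionals `phi D k` with `phi D k (vv D j) = RR D * L_(2|j-k|)` (Lucas numbers).  On
`F = L ∩ (0, R) × (-R, 0)` the functional `phi D k` has the unique minimum `2 R` at `vv D k`.
-/

set_option autoImplicit false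

namespace Pool.Agent.Helper68.RAC1

/-- the index of the lattice -/
def RR (D : ℕ) : ℤ := (Nat.fib (2 * D + 2) : ℤ)

/-- the lattice -/
def InL (D : ℕ) (p : ℤ × ℤ) : Prop := RR D ∣ p.1 - (Nat.fib (2 * D) : ℤ) * p.2

/-- the vectors of the sail -/
def vv (D j : ℕ) : ℤ × ℤ := ((Nat.fib (2 * j + 1) : ℤ), -(Nat.fib (2 * (D - j) + 1) : ℤ))

/-- the Lucas numbers `L_(2m+1)` -/
def lo (m : ℕ) : ℤ := 2 * (Nat.fib (2 * m) : ℤ) + (Nat.fib (2 * m + 1) : ℤ)

/-- the Lucas numbers `L_(2m)` -/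
def le (m : ℕ) : ℤ := 2 * (Nat.fib (2 * m + 1) : ℤ) - (Nat.fib (2 * m) : ℤ)

/-- the functional with the unique minimum at `vv D k` -/
def phi (D k : ℕ) (p : ℤ × ℤ) : ℤ := lo (D - k) * p.1 - lo k * p.2

/-- the lattice points in the open square `(0, R) × (-R, 0)` -/
def InF (D : ℕ) (f : ℤ × ℤ) : Prop := InL D f ∧ 0 < f.1 ∧ f.1 < RR D ∧ -RR D < f.2 ∧ f.2 < 0

/-! ### Fibonacci identities -/

theorem fib_add_even (m n : ℕ) : (Nat.fib (2 * (m + n)) : ℤ) =
    ((Nat.fib (2 * m + 1) : ℤ) - Nat.fib (2 * m)) * Nat.fib (2 * n) +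
      Nat.fib (2 * m) * Nat.fib (2 * n + 1) := by
  rcases Nat.eq_zero_or_pos m with rfl | hm
  · simp
  · obtain ⟨m', rfl⟩ : ∃ m', m = m' + 1 := ⟨m - 1, by omega⟩
    have h1 := Nat.fib_add (2 * m' + 1) (2 * n)
    have e1 : 2 * m' + 1 + 2 * n + 1 = 2 * (m' + 1 + n) := by ring
    rw [e1] at h1
    have h2 : Nat.fib (2 * (m' + 1) + 1) = Nat.fib (2 * m' + 1) + Nat.fib (2 * m' + 1 + 1) := by
      have := Nat.fib_add_two (n := 2 * m' + 1)
      have e2 : 2 * (m' + 1) + 1 = 2 * m' + 1 + 2 := by ring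
      rw [e2]
      exact this
    have e3 : 2 * (m' + 1) = 2 * m' + 1 + 1 := by ring
    rw [h1, h2, e3]
    push_cast
    ring

theorem fib_add_odd (m n : ℕ) : (Nat.fib (2 * (m + n) + 1) : ℤ) =
    Nat.fib (2 * m) * Nat.fib (2 * n) + Nat.fib (2 * m + 1) * Nat.fib (2 * n + 1) := by
  have h1 := Nat.fib_add (2 * m) (2 * n)
  have e1 : 2 * m + 2 * n + 1 = 2 * (m + n) + 1 := by ring
  rw [e1] at h1
  rw [h1]
  push_cast
  ring

theorem fib_two (m : ℕ) : (Nat.fib (2 * m + 2) : ℤ) = Nat.fib (2 * m) + Nat.fib (2 * m + 1) := by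
  rw [Nat.fib_add_two]
  push_cast
  ring

theorem fib_three (m : ℕ) : (Nat.fib (2 * (m + 1) + 1) : ℤ) =
    Nat.fib (2 * m) + 2 * Nat.fib (2 * m + 1) := by
  have e : 2 * (m + 1) + 1 = 2 * m + 1 + 2 := by ring
  rw [e, Nat.fib_add_two]
  have := fib_two m
  push_cast
  rw [show 2 * m + 1 + 1 = 2 * m + 2 by ring, this]
  ring

/-- Cassini -/
theorem cassini (m : ℕ) : (Nat.fib (2 * m + 1) : ℤ) ^ 2 - Nat.fib (2 * m) * Nat.fib (2 * m + 1) -
    (Nat.fib (2 * m) : ℤ) ^ 2 = 1 := by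
  induction m with
  | zero => simp
  | succ m ih =>
    have h1 := fib_three m
    have h2 := fib_two m
    have e : 2 * (m + 1) = 2 * m + 2 := by ring
    rw [h1, e, h2]
    linear_combination ih

/-- `phi` at a vector of the sail -/
theorem key (k i s : ℕ) : lo (i + s) * (Nat.fib (2 * (k + i) + 1) : ℤ) +
    lo k * Nat.fib (2 * s + 1) = (Nat.fib (2 * (k + i + s) + 2) : ℤ) * le i := by
  unfold lo le
  rw [fib_two, fib_add_even i s, fib_add_odd i s, fib_add_even (k + i) s, fib_add_odd (k + i) s,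
    fib_add_even k i, fib_add_odd k i]
  have h := cassini i
  linear_combination (-(Nat.fib (2 * s + 1) : ℤ) * (2 * Nat.fib (2 * k) + Nat.fib (2 * k + 1))) * h

theorem phi_vv_right {D k j : ℕ} (h1 : k ≤ j) (h2 : j ≤ D) :
    phi D k (vv D j) = RR D * le (j - k) := by
  have h := key k (j - k) (D - j)
  have e1 : j - k + (D - j) = D - k := by omega
  have e2 : k + (j - k) = j := by omega
  have e3 : j + (D - j) = D := by omega
  rw [e1, e2, e3] at h
  unfold phi vv RR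
  rw [← h]
  ring

theorem phi_vv_left {D k j : ℕ} (h1 : j ≤ k) (h2 : k ≤ D) :
    phi D k (vv D j) = RR D * le (k - j) := by
  have h := key (D - k) (k - j) j
  have e1 : k - j + j = k := by omega
  have e2 : D - k + (k - j) = D - j := by omega
  have e3 : D - j + j = D := by omega
  rw [e1, e2, e3] at h
  unfold phi vv RR
  rw [← h]
  ring

theorem le_zero : le 0 = 2 := by simp [le]

theorem le_pos {m : ℕ} (h : 1 ≤ m) : 3 ≤ le m := by
  obtain ⟨m', rfl⟩ : ∃ m', m = m' + 1 := ⟨m - 1, by omega⟩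
  unfold le
  have h1 := fib_three m'
  have h2 := fib_two m'
  have e : 2 * (m' + 1) = 2 * m' + 2 := by ring
  rw [h1, e, h2]
  have h3 : (1 : ℤ) ≤ Nat.fib (2 * m' + 1) := by
    have := Nat.fib_pos.2 (show 0 < 2 * m' + 1 by omega)
    exact_mod_cast this
  have h4 : (0 : ℤ) ≤ Nat.fib (2 * m') := by positivity
  linarith

theorem two_le_le (m : ℕ) : 2 ≤ le m := by
  rcases Nat.eq_zero_or_pos m with rfl | h
  · rw [le_zero]
  · linarith [le_pos h]

theorem RR_pos (D : ℕ) : 0 < RR D := by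
  unfold RR
  have := Nat.fib_pos.2 (show 0 < 2 * D + 2 by omega)
  exact_mod_cast this

/-! ### the lattice -/

theorem InL.add {D : ℕ} {p q : ℤ × ℤ} (hp : InL D p) (hq : InL D q) : InL D (p + q) := by
  have h := dvd_add hp hq
  have e : p.1 - (Nat.fib (2 * D) : ℤ) * p.2 + (q.1 - (Nat.fib (2 * D) : ℤ) * q.2) =
      (p + q).1 - (Nat.fib (2 * D) : ℤ) * (p + q).2 := by
    rw [Prod.fst_add, Prod.snd_add]
    ring
  rw [e] at h
  exact h

theorem InL.neg {D : ℕ} {p : ℤ × ℤ} (hp : InL D p) : InL D (-p) := by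
  have h := dvd_neg.2 hp
  have e : -(p.1 - (Nat.fib (2 * D) : ℤ) * p.2) =
      (-p).1 - (Nat.fib (2 * D) : ℤ) * (-p).2 := by
    rw [Prod.fst_neg, Prod.snd_neg]
    ring
  rw [e] at h
  exact h

theorem InL.sub {D : ℕ} {p q : ℤ × ℤ} (hp : InL D p) (hq : InL D q) : InL D (p - q) := by
  rw [sub_eq_add_neg]
  exact hp.add hq.neg

theorem inL_zero (D : ℕ) : InL D 0 := by simp [InL]

theorem InL.smul {D : ℕ} {p : ℤ × ℤ} (hp : InL D p) (n : ℤ) : InL D (n • p) := by
  have h := Dvd.dvd.mul_left hp n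
  have e : n * (p.1 - (Nat.fib (2 * D) : ℤ) * p.2) =
      (n • p).1 - (Nat.fib (2 * D) : ℤ) * (n • p).2 := by
    rw [Prod.smul_fst, Prod.smul_snd, smul_eq_mul, smul_eq_mul]
    ring
  rw [e] at h
  exact h

theorem inL_R (D : ℕ) : InL D (RR D, -RR D) := by
  unfold InL
  refine ⟨1 + (Nat.fib (2 * D) : ℤ), ?_⟩
  ring

theorem inL_R0 (D : ℕ) : InL D (RR D, 0) := by
  unfold InL
  refine ⟨1, ?_⟩
  ring

theorem inL_0R (D : ℕ) : InL D (0, RR D) := by
  unfold InL
  refine ⟨-(Nat.fib (2 * D) : ℤ), ?_⟩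
  ring

theorem inL_vv {D j : ℕ} (hj : j ≤ D) : InL D (vv D j) := by
  obtain ⟨s, rfl⟩ : ∃ s, D = j + s := ⟨D - j, by omega⟩
  unfold InL RR vv
  rw [show j + s - j = s by omega]
  refine ⟨(Nat.fib (2 * s + 1) : ℤ) - Nat.fib (2 * s), ?_⟩
  simp only
  rw [fib_two, fib_add_even j s, fib_add_odd j s]
  have h := cassini s
  linear_combination (-(Nat.fib (2 * j + 1) : ℤ)) * h

/-- the determinant -/
def det (p q : ℤ × ℤ) : ℤ := p.1 * q.2 - p.2 * q.1

theorem dvd_det {D : ℕ} {p q : ℤ × ℤ} (hp : InL D p) (hq : InL D q) : RR D ∣ det p q := by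
  obtain ⟨m, hm⟩ := hp
  obtain ⟨n, hn⟩ := hq
  refine ⟨m * q.2 - n * p.2, ?_⟩
  unfold det
  linear_combination q.2 * hm - p.2 * hn

theorem det_vv {D j : ℕ} (hj : j + 1 ≤ D) : det (vv D j) (vv D (j + 1)) = RR D := by
  obtain ⟨s, rfl⟩ : ∃ s, D = j + 1 + s := ⟨D - (j + 1), by omega⟩
  unfold det vv RR
  rw [show j + 1 + s - (j + 1) = s by omega, show j + 1 + s - j = s + 1 by omega]
  simp only
  rw [fib_two, fib_add_even (j + 1) s, fib_add_odd (j + 1) s, fib_three, fib_three,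
    show 2 * (j + 1) = 2 * j + 2 by ring, fib_two]
  have h := cassini j
  ring

theorem dlt_mul {R x : ℤ} (hR : 0 < R) (h : R ∣ x) (h1 : -R < x) : 0 ≤ x := by
  obtain ⟨m, rfl⟩ := h
  have : -1 < m := by
    by_contra hcon
    push Not at hcon
    nlinarith
  have h2 : 0 ≤ m := by omega
  positivity

/-- the determinant with the first vector -/
theorem det_vv_zero (D : ℕ) (f : ℤ × ℤ) :
    det (vv D 0) f = f.2 + (Nat.fib (2 * D + 1) : ℤ) * f.1 := by
  unfold det vv
  simp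

/-- the determinant with the last vector -/
theorem det_vv_last (D : ℕ) (f : ℤ × ℤ) :
    det (vv D D) f = (Nat.fib (2 * D + 1) : ℤ) * f.2 + f.1 := by
  unfold det vv
  simp

/-- a lattice point between the first and the last vector is a combination of two consecutive
vectors -/
theorem exists_cone' {D : ℕ} (hD1 : 1 ≤ D) {f : ℤ × ℤ} (hL : InL D f)
    (h0 : 0 ≤ det (vv D 0) f) (hD : det (vv D D) f ≤ 0) :
    ∃ j : ℕ, ∃ a b : ℤ, j + 1 ≤ D ∧ 0 ≤ a ∧ 0 ≤ b ∧ f = a • vv D j + b • vv D (j + 1) := by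
  have hR := RR_pos D
  have hd : ∀ j, j ≤ D → RR D ∣ det (vv D j) f := fun j hj => dvd_det (inL_vv hj) hL
  have hex : ∃ j, j + 1 ≤ D ∧ 0 ≤ det (vv D j) f ∧ det (vv D (j + 1)) f ≤ 0 := by
    by_contra hcon
    push Not at hcon
    have hall : ∀ j, j ≤ D → 0 ≤ det (vv D j) f ∧ (1 ≤ j → 0 < det (vv D j) f) := by
      intro j
      induction j with
      | zero => exact fun _ => ⟨h0, fun h => absurd h (by omega)⟩
      | succ j ih =>
        intro hj
        have h5 := hcon j hj (ih (by omega)).1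
        exact ⟨h5.le, fun _ => h5⟩
    have := (hall D le_rfl).2 hD1
    linarith
  obtain ⟨j, hj, hj1, hj2⟩ := hex
  obtain ⟨b, hb⟩ := hd j (by omega)
  obtain ⟨a, ha⟩ := (dvd_neg).2 (hd (j + 1) hj)
  have hdet := det_vv hj
  have ha0 : 0 ≤ a := by
    by_contra hcon
    push Not at hcon
    have : RR D * a < 0 := mul_neg_of_pos_of_neg hR hcon
    linarith
  have hb0 : 0 ≤ b := by
    by_contra hcon
    push Not at hcon
    have : RR D * b < 0 := mul_neg_of_pos_of_neg hR hcon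
    linarith
  refine ⟨j, a, b, hj, ha0, hb0, ?_⟩
  unfold det at hb ha hdet
  have e1 : RR D * f.1 = RR D * (a * (vv D j).1 + b * (vv D (j + 1)).1) := by
    linear_combination (-f.1) * hdet + (vv D j).1 * ha + (vv D (j + 1)).1 * hb
  have e2 : RR D * f.2 = RR D * (a * (vv D j).2 + b * (vv D (j + 1)).2) := by
    linear_combination (-f.2) * hdet + (vv D j).2 * ha + (vv D (j + 1)).2 * hb
  have e3 := mul_left_cancel₀ hR.ne' e1
  have e4 := mul_left_cancel₀ hR.ne' e2
  apply Prod.ext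
  · rw [e3]
    simp
  · rw [e4]
    simp

/-- every lattice point in the open square is a combination of two consecutive vectors -/
theorem exists_cone {D : ℕ} {f : ℤ × ℤ} (hf : InF D f) :
    ∃ j : ℕ, ∃ a b : ℤ, j + 1 ≤ D ∧ 0 ≤ a ∧ 0 ≤ b ∧ f = a • vv D j + b • vv D (j + 1) := by
  obtain ⟨hL, h1, h2, h3, h4⟩ := hf
  have hR := RR_pos D
  have hd : ∀ j, j ≤ D → RR D ∣ det (vv D j) f := fun j hj => dvd_det (inL_vv hj) hL
  have h0 : 0 ≤ det (vv D 0) f := by
    apply dlt_mul hR (hd 0 (Nat.zero_le D))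
    rw [det_vv_zero]
    have h5 : (0 : ℤ) ≤ (Nat.fib (2 * D + 1) : ℤ) * f.1 := mul_nonneg (by positivity) h1.le
    linarith
  have hD : det (vv D D) f ≤ 0 := by
    have h5 : 0 ≤ -det (vv D D) f := by
      apply dlt_mul hR ((dvd_neg).2 (hd D le_rfl))
      rw [det_vv_last]
      have h5 : (Nat.fib (2 * D + 1) : ℤ) * f.2 ≤ 0 :=
        mul_nonpos_of_nonneg_of_nonpos (by positivity) h4.le
      linarith
    linarith
  have hD1 : 1 ≤ D := by
    rcases Nat.eq_zero_or_pos D with rfl | h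
    · have e : RR 0 = 1 := by simp [RR]
      rw [e] at h2
      omega
    · exact h
  exact exists_cone' hD1 hL h0 hD

theorem phi_add (D k : ℕ) (p q : ℤ × ℤ) : phi D k (p + q) = phi D k p + phi D k q := by
  unfold phi
  rw [Prod.fst_add, Prod.snd_add]
  ring

theorem phi_neg (D k : ℕ) (p : ℤ × ℤ) : phi D k (-p) = -phi D k p := by
  unfold phi
  rw [Prod.fst_neg, Prod.snd_neg]
  ring

theorem phi_sub (D k : ℕ) (p q : ℤ × ℤ) : phi D k (p - q) = phi D k p - phi D k q := by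
  rw [sub_eq_add_neg, phi_add, phi_neg]
  ring

theorem phi_smul (D k : ℕ) (n : ℤ) (p : ℤ × ℤ) : phi D k (n • p) = n * phi D k p := by
  unfold phi
  rw [Prod.smul_fst, Prod.smul_snd, smul_eq_mul, smul_eq_mul]
  ring

theorem phi_vv_self {D k : ℕ} (hk : k ≤ D) : phi D k (vv D k) = 2 * RR D := by
  rw [phi_vv_right le_rfl hk, Nat.sub_self, le_zero]
  ring

theorem phi_vv_ge {D k j : ℕ} (hk : k ≤ D) (hj : j ≤ D) (h : j ≠ k) :
    3 * RR D ≤ phi D k (vv D j) := by
  have hR := RR_pos D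
  rcases lt_or_gt_of_ne h with h1 | h1
  · rw [phi_vv_left h1.le hk]
    nlinarith [le_pos (show 1 ≤ k - j by omega)]
  · rw [phi_vv_right h1.le hj]
    nlinarith [le_pos (show 1 ≤ j - k by omega)]

theorem phi_vv_ge_two {D k j : ℕ} (hk : k ≤ D) (hj : j ≤ D) : 2 * RR D ≤ phi D k (vv D j) := by
  have hR := RR_pos D
  by_cases h : j = k
  · rw [h, phi_vv_self hk]
  · linarith [phi_vv_ge hk hj h]

/-- `phi D k` has the unique minimum `2 R` on `F`, at `vv D k`; all other values are at least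
`3 R` -/
theorem phi_min {D k : ℕ} (hk : k ≤ D) {f : ℤ × ℤ} (hf : InF D f) :
    f = vv D k ∨ 3 * RR D ≤ phi D k f := by
  obtain ⟨j, a, b, hj, ha, hb, e⟩ := exists_cone hf
  have hR := RR_pos D
  have h1 := phi_vv_ge_two (D := D) hk (show j ≤ D by omega)
  have h2 := phi_vv_ge_two (D := D) hk hj
  have e1 : phi D k f = a * phi D k (vv D j) + b * phi D k (vv D (j + 1)) := by
    rw [e, phi_add, phi_smul, phi_smul]
  have hne : ¬ (a = 0 ∧ b = 0) := by
    rintro ⟨rfl, rfl⟩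
    have h3 := hf.2.1
    rw [e] at h3
    simp at h3
  rcases (show a = 1 ∧ b = 0 ∨ a = 0 ∧ b = 1 ∨ 2 ≤ a + b by omega) with ⟨rfl, rfl⟩ | ⟨rfl, rfl⟩ | h
  · rw [one_smul, zero_smul, add_zero] at e
    by_cases hjk : j = k
    · left
      rw [e, hjk]
    · right
      rw [e]
      exact phi_vv_ge hk (by omega) hjk
  · rw [one_smul, zero_smul, zero_add] at e
    by_cases hjk : j + 1 = k
    · left
      rw [e, hjk]
    · right
      rw [e]
      exact phi_vv_ge hk hj hjk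
  · right
    rw [e1]
    nlinarith

theorem phi_ge {D k : ℕ} (hk : k ≤ D) {f : ℤ × ℤ} (hf : InF D f) : 2 * RR D ≤ phi D k f := by
  have hR := RR_pos D
  rcases phi_min hk hf with h | h
  · rw [h, phi_vv_self hk]
  · linarith

theorem lo_zero : lo 0 = 1 := by simp [lo]

theorem lo_succ (m : ℕ) : lo (m + 1) = 4 * (Nat.fib (2 * m + 1) : ℤ) + 3 * Nat.fib (2 * m) := by
  unfold lo
  have e : 2 * (m + 1) = 2 * m + 2 := by ring
  rw [fib_three, e, fib_two]
  ring

theorem lo_lt (m : ℕ) : lo m < lo (m + 1) := by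
  rw [lo_succ]
  unfold lo
  have h3 : (1 : ℤ) ≤ Nat.fib (2 * m + 1) := by
    have := Nat.fib_pos.2 (show 0 < 2 * m + 1 by omega)
    exact_mod_cast this
  have h4 : (0 : ℤ) ≤ Nat.fib (2 * m) := by positivity
  linarith

theorem lo_strictMono : StrictMono lo := strictMono_nat_of_lt_succ lo_lt

theorem lo_one : lo 1 = 4 := by
  rw [show (1 : ℕ) = 0 + 1 by rfl, lo_succ]
  simp

theorem lo_two : lo 2 = 11 := by
  rw [show (2 : ℕ) = 1 + 1 by rfl, lo_succ]
  norm_num [Nat.fib_add_two, Nat.fib]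

theorem lo_pos (m : ℕ) : 1 ≤ lo m := by
  have := lo_strictMono.monotone (Nat.zero_le m)
  rwa [lo_zero] at this

theorem four_le_lo {m : ℕ} (h : 1 ≤ m) : 4 ≤ lo m := by
  have := lo_strictMono.monotone h
  rwa [lo_one] at this

theorem eleven_le_lo {m : ℕ} (h : 2 ≤ m) : 11 ≤ lo m := by
  have := lo_strictMono.monotone h
  rwa [lo_two] at this

/-- the closed quadrant -/
theorem phi_min_closed {D k : ℕ} (hk1 : 1 ≤ k) (hk : k + 1 ≤ D) {f : ℤ × ℤ} (hL : InL D f)
    (h1 : 0 ≤ f.1) (h2 : f.2 ≤ 0) (h0 : f ≠ 0) : f = vv D k ∨ 3 * RR D ≤ phi D k f := by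
  have hR := RR_pos D
  have hd : ∀ j, j ≤ D → RR D ∣ det (vv D j) f := fun j hj => dvd_det (inL_vv hj) hL
  have l1 := four_le_lo hk1
  have l2 := four_le_lo (show 1 ≤ D - k by omega)
  have hF : (0 : ℤ) ≤ (Nat.fib (2 * D + 1) : ℤ) := by positivity
  by_cases c1 : 0 ≤ det (vv D 0) f
  · by_cases c2 : det (vv D D) f ≤ 0
    · obtain ⟨j, a, b, hj, ha, hb, e⟩ := exists_cone' (by omega) hL c1 c2
      have h1 := phi_vv_ge_two (D := D) (k := k) (by omega) (show j ≤ D by omega)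
      have h2 := phi_vv_ge_two (D := D) (k := k) (by omega) hj
      have e1 : phi D k f = a * phi D k (vv D j) + b * phi D k (vv D (j + 1)) := by
        rw [e, phi_add, phi_smul, phi_smul]
      have hne : ¬ (a = 0 ∧ b = 0) := by
        rintro ⟨rfl, rfl⟩
        apply h0
        rw [e]
        simp
      rcases (show a = 1 ∧ b = 0 ∨ a = 0 ∧ b = 1 ∨ 2 ≤ a + b by omega) with
        ⟨rfl, rfl⟩ | ⟨rfl, rfl⟩ | h
      · rw [one_smul, zero_smul, add_zero] at e
        by_cases hjk : j = k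
        · left
          rw [e, hjk]
        · right
          rw [e]
          exact phi_vv_ge (by omega) (by omega) hjk
      · rw [one_smul, zero_smul, zero_add] at e
        by_cases hjk : j + 1 = k
        · left
          rw [e, hjk]
        · right
          rw [e]
          exact phi_vv_ge (by omega) hj hjk
      · right
        rw [e1]
        nlinarith
    · right
      have h5 : RR D ≤ det (vv D D) f := Int.le_of_dvd (by omega) (hd D le_rfl)
      rw [det_vv_last] at h5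
      have h6 : (Nat.fib (2 * D + 1) : ℤ) * f.2 ≤ 0 :=
        mul_nonpos_of_nonneg_of_nonpos hF h2
      unfold phi
      nlinarith
  · right
    have h5 : RR D ≤ -det (vv D 0) f := Int.le_of_dvd (by omega) (dvd_neg.2 (hd 0 (by omega)))
    rw [det_vv_zero] at h5
    have h6 : 0 ≤ (Nat.fib (2 * D + 1) : ℤ) * f.1 := mul_nonneg hF h1
    unfold phi
    nlinarith

theorem phi_ge_closed {D k : ℕ} (hk1 : 1 ≤ k) (hk : k + 1 ≤ D) {f : ℤ × ℤ} (hL : InL D f)
    (h1 : 0 ≤ f.1) (h2 : f.2 ≤ 0) (h0 : f ≠ 0) : 2 * RR D ≤ phi D k f := by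
  have hR := RR_pos D
  rcases phi_min_closed hk1 hk hL h1 h2 h0 with h | h
  · rw [h, phi_vv_self (by omega)]
  · linarith

theorem phi_R0 (D k : ℕ) : phi D k (RR D, 0) = RR D * lo (D - k) := by
  unfold phi
  ring

theorem phi_0R (D k : ℕ) : phi D k (0, -RR D) = RR D * lo k := by
  unfold phi
  ring

theorem vv_last (D : ℕ) : vv D D = ((Nat.fib (2 * D + 1) : ℤ), -1) := by
  unfold vv
  simp

theorem vv_zero (D : ℕ) : vv D 0 = (1, -(Nat.fib (2 * D + 1) : ℤ)) := by
  unfold vv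
  simp

/-- the values of `phi` on the lattice are multiples of `R` -/
theorem dvd_phi {D k : ℕ} (hk : k ≤ D) {f : ℤ × ℤ} (hL : InL D f) : RR D ∣ phi D k f := by
  obtain ⟨m, hm⟩ := hL
  have h1 := phi_vv_right hk le_rfl
  rw [vv_last] at h1
  refine ⟨m * lo (D - k) + f.2 * (lo (D - k) - le (D - k)), ?_⟩
  have hR : RR D = (Nat.fib (2 * D) : ℤ) + Nat.fib (2 * D + 1) := by
    unfold RR
    exact fib_two D
  unfold phi at h1 ⊢
  simp only at h1
  linear_combination (lo (D - k)) * hm + (-f.2) * h1 - f.2 * lo (D - k) * hR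

/-! ### Lucas numbers -/

/-- the Lucas numbers -/
def luc : ℕ → ℤ
  | 0 => 2
  | 1 => 1
  | n + 2 => luc (n + 1) + luc n

theorem luc_add_two (n : ℕ) : luc (n + 2) = luc (n + 1) + luc n := rfl

theorem luc_both (m : ℕ) : luc (2 * m) = le m ∧ luc (2 * m + 1) = lo m := by
  induction m with
  | zero => simp [luc, le_zero, lo_zero]
  | succ m ih =>
    obtain ⟨h1, h2⟩ := ih
    have e1 : luc (2 * (m + 1)) = le (m + 1) := by
      rw [show 2 * (m + 1) = 2 * m + 2 by ring, luc_add_two, h1, h2]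
      unfold lo le
      rw [fib_three, show 2 * (m + 1) = 2 * m + 2 by ring, fib_two]
      ring
    refine ⟨e1, ?_⟩
    rw [show 2 * (m + 1) + 1 = 2 * m + 1 + 2 by ring, luc_add_two,
      show 2 * m + 1 + 1 = 2 * (m + 1) by ring, e1, h2]
    unfold lo le
    rw [fib_three, show 2 * (m + 1) = 2 * m + 2 by ring, fib_two]
    ring

theorem luc_even (m : ℕ) : luc (2 * m) = le m := (luc_both m).1

theorem luc_odd (m : ℕ) : luc (2 * m + 1) = lo m := (luc_both m).2

/-- `L_(2m+1) = L_(2m) + L_(2m-1)` and `L_(2m+2) = L_(2m+1) + L_(2m)` -/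
theorem le_succ (m : ℕ) : le (m + 1) = lo m + le m := by
  rw [← luc_even, ← luc_even, ← luc_odd, show 2 * (m + 1) = 2 * m + 2 by ring, luc_add_two]

theorem lo_succ' (m : ℕ) : lo (m + 1) = le (m + 1) + lo m := by
  rw [← luc_odd, ← luc_odd, ← luc_even, show 2 * (m + 1) + 1 = 2 * m + 1 + 2 by ring, luc_add_two]
  rfl

/-! ### size of the vectors -/

theorem fib_odd_lt {i j : ℕ} (h : i < j) : Nat.fib (2 * i + 1) < Nat.fib (2 * j + 1) := by
  rcases Nat.eq_zero_or_pos i with rfl | hi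
  · have h1 : Nat.fib 2 < Nat.fib (2 * j + 1) :=
      Nat.fib_strictMonoOn (by simp) (by simp; omega) (by omega)
    simpa using h1
  · exact Nat.fib_strictMonoOn (by simp; omega) (by simp; omega) (by omega)

theorem vv_fst_lt (D : ℕ) {i j : ℕ} (h : i < j) : (vv D i).1 < (vv D j).1 := by
  have h2 : ((Nat.fib (2 * i + 1) : ℕ) : ℤ) < (Nat.fib (2 * j + 1) : ℕ) := by
    exact_mod_cast fib_odd_lt h
  exact h2

theorem vv_snd_lt {D i j : ℕ} (h : i < j) (hj : j ≤ D) : (vv D i).2 < (vv D j).2 := by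
  unfold vv
  have := fib_odd_lt (show D - j < D - i by omega)
  simp only
  have h2 : ((Nat.fib (2 * (D - j) + 1) : ℕ) : ℤ) < (Nat.fib (2 * (D - i) + 1) : ℕ) := by
    exact_mod_cast this
  linarith

theorem vv_inj {D i j : ℕ} (h : vv D i = vv D j) : i = j := by
  rcases lt_trichotomy i j with h1 | h1 | h1
  · have := vv_fst_lt D h1
    rw [h] at this
    exact absurd this (lt_irrefl _)
  · exact h1
  · have := vv_fst_lt D h1
    rw [h] at this
    exact absurd this (lt_irrefl _)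

theorem fib_two_lt {j D : ℕ} (h : j + 1 ≤ D) :
    2 * (Nat.fib (2 * j + 1) : ℤ) < Nat.fib (2 * D + 2) := by
  have h1 : Nat.fib (2 * (j + 1) + 2) ≤ Nat.fib (2 * D + 2) := Nat.fib_mono (by omega)
  have h2 : (Nat.fib (2 * (j + 1) + 2) : ℤ) ≤ Nat.fib (2 * D + 2) := by exact_mod_cast h1
  rw [fib_two, fib_three, show 2 * (j + 1) = 2 * j + 2 by ring, fib_two] at h2
  have h3 : (1 : ℤ) ≤ Nat.fib (2 * j + 1) := by
    have := Nat.fib_pos.2 (show 0 < 2 * j + 1 by omega)
    exact_mod_cast this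
  have h4 : (0 : ℤ) ≤ Nat.fib (2 * j) := by positivity
  linarith

/-- `2 F_(2j+1) < R` for `j < D` -/
theorem two_vv_fst_lt {j D : ℕ} (h : j + 1 ≤ D) : 2 * (vv D j).1 < RR D := fib_two_lt h

/-- `2 F_(2(D-j)+1) < R` for `0 < j ≤ D` -/
theorem lt_two_vv_snd {j D : ℕ} (h1 : 1 ≤ j) (h : j ≤ D) : -RR D < 2 * (vv D j).2 := by
  have := fib_two_lt (show D - j + 1 ≤ D by omega)
  unfold vv RR
  simp only
  linarith

theorem vv_fst_pos (D j : ℕ) : 0 < (vv D j).1 := by
  have h := Nat.fib_pos.2 (show 0 < 2 * j + 1 by omega)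
  have h2 : (0 : ℤ) < (Nat.fib (2 * j + 1) : ℤ) := by exact_mod_cast h
  exact h2

theorem vv_snd_neg (D j : ℕ) : (vv D j).2 < 0 := by
  unfold vv
  have h := Nat.fib_pos.2 (show 0 < 2 * (D - j) + 1 by omega)
  have h2 : (0 : ℤ) < (Nat.fib (2 * (D - j) + 1) : ℤ) := by exact_mod_cast h
  simp only
  linarith

theorem inF_vv {D j : ℕ} (hD : 1 ≤ D) (hj : j ≤ D) : InF D (vv D j) := by
  have h1 : (Nat.fib (2 * j + 1) : ℤ) < Nat.fib (2 * D + 2) := by
    have : Nat.fib (2 * j + 1) < Nat.fib (2 * D + 2) := by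
      calc Nat.fib (2 * j + 1) ≤ Nat.fib (2 * D + 1) := Nat.fib_mono (by omega)
        _ < Nat.fib (2 * D + 2) :=
          Nat.fib_strictMonoOn (by simp; omega) (by simp) (by omega)
    exact_mod_cast this
  have h2 : (Nat.fib (2 * (D - j) + 1) : ℤ) < Nat.fib (2 * D + 2) := by
    have : Nat.fib (2 * (D - j) + 1) < Nat.fib (2 * D + 2) := by
      calc Nat.fib (2 * (D - j) + 1) ≤ Nat.fib (2 * D + 1) := Nat.fib_mono (by omega)
        _ < Nat.fib (2 * D + 2) :=
          Nat.fib_strictMonoOn (by simp; omega) (by simp) (by omega)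
    exact_mod_cast this
  refine ⟨inL_vv hj, vv_fst_pos D j, h1, ?_, vv_snd_neg D j⟩
  unfold vv RR
  simp only
  linarith

/-! ### the opposite vectors -/

/-- the reflection of `F` -/
def opp (D : ℕ) (f : ℤ × ℤ) : ℤ × ℤ := (RR D, -RR D) - f

theorem opp_opp (D : ℕ) (f : ℤ × ℤ) : opp D (opp D f) = f := by
  unfold opp
  abel

theorem InF.opp {D : ℕ} {f : ℤ × ℤ} (hf : InF D f) : InF D (opp D f) := by
  obtain ⟨hL, h1, h2, h3, h4⟩ := hf
  refine ⟨(inL_R D).sub hL, ?_, ?_, ?_, ?_⟩ <;>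
    simp only [Pool.Agent.Helper68.RAC1.opp, Prod.fst_sub, Prod.snd_sub] <;> linarith

/-- the maximal gain of a move -/
def gain (D k : ℕ) : ℤ := phi D k (RR D, -RR D) - 4 * RR D

theorem phi_opp (D k : ℕ) (f : ℤ × ℤ) : phi D k (opp D f) = gain D k + 4 * RR D - phi D k f := by
  unfold opp gain
  rw [phi_sub]
  ring

theorem phi_sub_le {D k : ℕ} (hk : k ≤ D) {f f' : ℤ × ℤ} (hf : InF D f) (hf' : InF D f') :
    phi D k (f' - f) ≤ gain D k ∧
      (phi D k (f' - f) = gain D k → f = vv D k ∧ f' = opp D (vv D k)) := by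
  have hR := RR_pos D
  have h1 := phi_min hk hf
  have h2 := phi_min hk hf'.opp
  have h3 := phi_ge hk hf
  have h4 := phi_ge hk hf'.opp
  have e := phi_opp D k f'
  rw [phi_sub]
  refine ⟨by linarith, fun h => ?_⟩
  constructor
  · rcases h1 with h1 | h1
    · exact h1
    · linarith
  · rcases h2 with h2 | h2
    · rw [← h2, opp_opp]
    · linarith

end Pool.Agent.Helper68.RAC1
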