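import Pool.Agent.Helper68.RAC1.Sail

/-!
# Counting the points of the Fibonacci lattice in boxes

In every column a block of `b * R` consecutive heights contains exactly `b` lattice points.
-/

set_option autoImplicit false

namespace Pool.Agent.Helper68.RAC1

/-- the index of the lattice as a natural number -/
def RN (D : ℕ) : ℕ := Nat.fib (2 * D + 2)

theorem RN_cast (D : ℕ) : (RN D : ℤ) = RR D := rfl

theorem RN_pos (D : ℕ) : 0 < RN D := Nat.fib_pos.2 (by omega)

/-- `F_(2D)` is its own inverse modulo `F_(2D+2)` -/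
theorem dvd_sq (D : ℕ) : RR D ∣ (Nat.fib (2 * D) : ℤ) ^ 2 - 1 := by
  have h := cassini D
  refine ⟨2 * (Nat.fib (2 * D) : ℤ) - Nat.fib (2 * D + 1), ?_⟩
  unfold RR
  rw [fib_two]
  linear_combination h

instance (D : ℕ) (p : ℤ × ℤ) : Decidable (InL D p) := by
  unfold InL
  infer_instance

theorem inL_iff_dvd (D : ℕ) (x y : ℤ) : InL D (x, y) ↔ RR D ∣ y - (Nat.fib (2 * D) : ℤ) * x := by
  have h := dvd_sq D
  unfold InL
  simp only
  constructor
  · intro h1
    have h2 := (Dvd.dvd.mul_left h1 (-(Nat.fib (2 * D) : ℤ))).sub (Dvd.dvd.mul_left h y)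
    have e : -(Nat.fib (2 * D) : ℤ) * (x - (Nat.fib (2 * D) : ℤ) * y) -
        y * ((Nat.fib (2 * D) : ℤ) ^ 2 - 1) = y - (Nat.fib (2 * D) : ℤ) * x := by ring
    rwa [e] at h2
  · intro h1
    have h2 := (Dvd.dvd.mul_left h1 (-(Nat.fib (2 * D) : ℤ))).sub (Dvd.dvd.mul_left h x)
    have e : -(Nat.fib (2 * D) : ℤ) * (y - (Nat.fib (2 * D) : ℤ) * x) -
        x * ((Nat.fib (2 * D) : ℤ) ^ 2 - 1) = x - (Nat.fib (2 * D) : ℤ) * y := by ring
    rwa [e] at h2

/-- in each column exactly `b` lattice points among `b * R` consecutive heights -/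
theorem card_col (D b : ℕ) (x : ℤ) (y0 : ℕ) :
    ((Finset.Ico y0 (y0 + b * RN D)).filter (fun y : ℕ => InL D (x, (y : ℤ)))).card = b := by
  classical
  have hR := RN_pos D
  obtain ⟨v, hv⟩ : ∃ v : ℕ, ∀ y : ℕ, InL D (x, (y : ℤ)) ↔ y ≡ v [MOD RN D] := by
    refine ⟨(((Nat.fib (2 * D) : ℤ) * x) % RR D).toNat, fun y => ?_⟩
    have h0 : 0 ≤ ((Nat.fib (2 * D) : ℤ) * x) % RR D := Int.emod_nonneg _ (RR_pos D).ne'
    rw [inL_iff_dvd, ← Int.natCast_modEq_iff, Int.toNat_of_nonneg h0, RN_cast]
    constructor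
    · intro h
      have h1 : (y : ℤ) ≡ (Nat.fib (2 * D) : ℤ) * x [ZMOD RR D] :=
        ((Int.modEq_iff_dvd).2 (by
          have := dvd_neg.2 h
          have e : -((y : ℤ) - (Nat.fib (2 * D) : ℤ) * x) = (Nat.fib (2 * D) : ℤ) * x - y := by ring
          rwa [e] at this))
      exact h1.trans (Int.mod_modEq _ _).symm
    · intro h
      have h1 := h.trans (Int.mod_modEq _ _)
      have h2 := (Int.modEq_iff_dvd).1 h1
      have h3 := dvd_neg.2 h2
      have e : -((Nat.fib (2 * D) : ℤ) * x - (y : ℤ)) = y - (Nat.fib (2 * D) : ℤ) * x := by ring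
      rwa [e] at h3
  have hper : Function.Periodic (fun y : ℕ => y ≡ v [MOD RN D]) (b * RN D) := by
    intro y
    have : y + b * RN D ≡ y [MOD RN D] := by
      unfold Nat.ModEq
      rw [Nat.add_mul_mod_self_right]
    apply propext
    exact ⟨fun h => this.symm.trans h, fun h => this.trans h⟩
  have h1 := Nat.filter_Ico_card_eq_of_periodic y0 (b * RN D) (fun y : ℕ => y ≡ v [MOD RN D]) hper
  have h2 := Nat.count_modEq_card (b := b * RN D) hR v
  rw [h2] at h1
  have h3 : b * RN D / RN D = b := Nat.mul_div_cancel _ hR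
  have h4 : b * RN D % RN D = 0 := Nat.mul_mod_left _ _
  rw [h3, h4, if_neg (by omega), add_zero] at h1
  refine Eq.trans ?_ h1
  congr 1
  ext y
  simp only [Finset.mem_filter, Finset.mem_Ico]
  rw [hv y]

/-- points with the first coordinate in a finite set and the second in a block -/
theorem card_box (D b : ℕ) (s : Finset ℕ) (y0 : ℕ) :
    ((s ×ˢ Finset.Ico y0 (y0 + b * RN D)).filter
      (fun z : ℕ × ℕ => InL D ((z.1 : ℤ), (z.2 : ℤ)))).card = s.card * b := by
  classical
  have h : (s ×ˢ Finset.Ico y0 (y0 + b * RN D)).filter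
      (fun z : ℕ × ℕ => InL D ((z.1 : ℤ), (z.2 : ℤ))) =
      s.biUnion (fun x => ((Finset.Ico y0 (y0 + b * RN D)).filter
        (fun y : ℕ => InL D ((x : ℤ), (y : ℤ)))).image (fun y => (x, y))) := by
    ext ⟨x, y⟩
    simp only [Finset.mem_filter, Finset.mem_product, Finset.mem_biUnion, Finset.mem_image,
      Prod.mk.injEq]
    constructor
    · rintro ⟨⟨h1, h2⟩, h3⟩
      exact ⟨x, h1, y, ⟨h2, h3⟩, rfl, rfl⟩
    · rintro ⟨x', h1, y', ⟨h2, h3⟩, rfl, rfl⟩
      exact ⟨⟨h1, h2⟩, h3⟩
  rw [h, Finset.card_biUnion]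
  · rw [Finset.sum_congr rfl (g := fun _ => b)]
    · simp
    · intro x _
      rw [Finset.card_image_of_injective _ (fun y y' hy => (Prod.mk.inj hy).2)]
      exact card_col D b x y0
  · intro x _ x' _ hne
    rw [Function.onFun, Finset.disjoint_left]
    rintro ⟨u, w⟩ h1 h2
    simp only [Finset.mem_image, Prod.mk.injEq] at h1 h2
    obtain ⟨_, _, rfl, _⟩ := h1
    obtain ⟨_, _, h3, _⟩ := h2
    exact hne h3.symm

/-- the slabs: in an interval of length `q (l + 1) W` exactly `q W` numbers `x` have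
`(x / W) % (l + 1) = 0` -/
theorem card_slab {W : ℕ} (hW : 0 < W) (l q x0 : ℕ) :
    ((Finset.Ico x0 (x0 + q * ((l + 1) * W))).filter (fun x : ℕ => (x / W) % (l + 1) = 0)).card =
      q * W := by
  classical
  have hper : Function.Periodic (fun x : ℕ => (x / W) % (l + 1) = 0) ((l + 1) * W) := by
    intro x
    simp only
    rw [Nat.add_mul_div_right _ _ hW, Nat.add_mod_right]
  have hper2 : Function.Periodic (fun x : ℕ => (x / W) % (l + 1) = 0) (q * ((l + 1) * W)) := by
    have := hper.nat_mul q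
    simpa using this
  rw [Nat.filter_Ico_card_eq_of_periodic _ _ _ hper2, Nat.count_eq_card_filter_range]
  -- the count over `q` periods starting from `0`
  induction q with
  | zero => simp
  | succ q ih =>
    have hq : Function.Periodic (fun x : ℕ => (x / W) % (l + 1) = 0) (q * ((l + 1) * W)) := by
      have := hper.nat_mul q
      simpa using this
    have e0 : (q + 1) * ((l + 1) * W) = q * ((l + 1) * W) + (l + 1) * W := by ring
    have e1 : (Finset.range ((q + 1) * ((l + 1) * W))).filter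
        (fun x : ℕ => (x / W) % (l + 1) = 0) =
        (Finset.range (q * ((l + 1) * W))).filter (fun x : ℕ => (x / W) % (l + 1) = 0) ∪
          (Finset.Ico (q * ((l + 1) * W)) (q * ((l + 1) * W) + (l + 1) * W)).filter
            (fun x : ℕ => (x / W) % (l + 1) = 0) := by
      ext x
      simp only [Finset.mem_filter, Finset.mem_range, Finset.mem_union, Finset.mem_Ico]
      rw [e0]
      constructor
      · rintro ⟨h1, h2⟩
        by_cases h3 : x < q * ((l + 1) * W)
        · exact Or.inl ⟨h3, h2⟩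
        · exact Or.inr ⟨⟨by omega, h1⟩, h2⟩
      · rintro (⟨h1, h2⟩ | ⟨⟨h1, h3⟩, h2⟩)
        · exact ⟨by omega, h2⟩
        · exact ⟨h3, h2⟩
    have e2 : Disjoint ((Finset.range (q * ((l + 1) * W))).filter
        (fun x : ℕ => (x / W) % (l + 1) = 0))
        ((Finset.Ico (q * ((l + 1) * W)) (q * ((l + 1) * W) + (l + 1) * W)).filter
            (fun x : ℕ => (x / W) % (l + 1) = 0)) := by
      rw [Finset.disjoint_left]
      intro x h1 h2
      simp only [Finset.mem_filter, Finset.mem_range, Finset.mem_Ico] at h1 h2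
      omega
    have e3 : (Finset.range ((l + 1) * W)).filter (fun x : ℕ => (x / W) % (l + 1) = 0) =
        Finset.range W := by
      ext x
      simp only [Finset.mem_filter, Finset.mem_range]
      constructor
      · rintro ⟨h1, h2⟩
        have h3 : x / W < l + 1 := (Nat.div_lt_iff_lt_mul hW).2 h1
        rw [Nat.mod_eq_of_lt h3] at h2
        exact (Nat.div_eq_zero_iff_lt hW).1 h2
      · intro h1
        refine ⟨lt_of_lt_of_le h1 (Nat.le_mul_of_pos_left _ (by omega)), ?_⟩
        rw [Nat.div_eq_of_lt h1, Nat.zero_mod]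
    rw [e1, Finset.card_union_of_disjoint e2, ih hq,
      Nat.filter_Ico_card_eq_of_periodic _ _ _ hper, Nat.count_eq_card_filter_range, e3,
      Finset.card_range]
    ring

end Pool.Agent.Helper68.RAC1
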