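import Pool.Agent.Helper58.DG3.Base
import Pool.Agent.Helper68.RAC1.BoxCount

/-!
# The number of names

`Gd π`: the names of the inner vertices of the threads.  For every `e` there are `D`, `l` such
that `e` times the number of the other names is at most the number of the inner vertices of the
threads, for all large `M`.
-/

set_option autoImplicit false

namespace Pool.Agent.Helper68.RAC1

open Pool.Agent.Helper58.DG3 (Par GN)

/-- the good names: the inner vertices of the threads -/
def Gd (π : Par) : GN → Prop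
  | .T k x y t => π.St k x y ∧ 1 ≤ t ∧ t ≤ 2 * π.l
  | _ => False

theorem Gd.ok {π : Par} {x : GN} (h : Gd π x) : x.ok π := by
  cases x with
  | T k x y t =>
    have h' : π.St k x y ∧ 1 ≤ t ∧ t ≤ 2 * π.l := h
    exact ⟨h'.1, by omega⟩
  | _ => exact absurd h id

theorem Gd.not_nt {π : Par} {x : GN} (h : Gd π x) : ¬ x.nt := by
  cases x with
  | T k x y t => exact id
  | _ => exact absurd h id

open Classical in
/-- the starts of all classes -/
noncomputable def stA (π : Par) : Finset (ℕ × ℕ × ℕ) :=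
  (Finset.range (π.D + 1) ×ˢ (Finset.range (π.M + 1) ×ˢ Finset.range (π.M + 1))).filter
    (fun z => π.St z.1 z.2.1 z.2.2)

theorem mem_stA (π : Par) (k x y : ℕ) : (k, x, y) ∈ stA π ↔ π.St k x y := by
  classical
  unfold stA
  rw [Finset.mem_filter]
  constructor
  · intro h
    exact h.2
  · intro h
    refine ⟨?_, h⟩
    obtain ⟨⟨h1, h2⟩, -, -, -, h3, -⟩ := h
    simp only [Finset.mem_product, Finset.mem_range]
    omega

open Classical in
/-- the points of the net -/
noncomputable def netA (π : Par) : Finset (ℕ × ℕ) :=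
  (Finset.range (π.M + 1) ×ˢ Finset.range (π.M + 1)).filter
    (fun z => (GN.F z.1 z.2).ok π)

theorem mem_netA (π : Par) (x y : ℕ) : (x, y) ∈ netA π ↔ (GN.F x y).ok π := by
  classical
  unfold netA
  rw [Finset.mem_filter]
  constructor
  · intro h
    exact h.2
  · intro h
    refine ⟨?_, h⟩
    obtain ⟨h1, h2, h3, h4⟩ := h
    simp only [Finset.mem_product, Finset.mem_range]
    omega

/-- the good names -/
noncomputable def goodF (π : Par) : Finset GN :=
  (stA π ×ˢ Finset.Icc 1 (2 * π.l)).image (fun z => GN.T z.1.1 z.1.2.1 z.1.2.2 z.2)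

theorem mem_goodF (π : Par) (x : GN) : x ∈ goodF π ↔ Gd π x := by
  unfold goodF
  rw [Finset.mem_image]
  constructor
  · rintro ⟨⟨⟨k, x, y⟩, t⟩, h, rfl⟩
    simp only [Finset.mem_product, Finset.mem_Icc] at h
    exact ⟨(mem_stA π k x y).1 h.1, h.2⟩
  · intro h
    cases x with
    | T k x y t =>
      obtain ⟨h1, h2⟩ := h
      refine ⟨((k, x, y), t), ?_, rfl⟩
      simp only [Finset.mem_product, Finset.mem_Icc]
      exact ⟨(mem_stA π k x y).2 h1, h2⟩
    | _ => exact absurd h id

theorem card_goodF (π : Par) : (goodF π).card = (stA π).card * (2 * π.l) := by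
  unfold goodF
  rw [Finset.card_image_of_injective, Finset.card_product, Nat.card_Icc, Nat.add_sub_cancel]
  rintro ⟨⟨k, x, y⟩, t⟩ ⟨⟨k', x', y'⟩, t'⟩ h
  simp only [GN.T.injEq] at h
  obtain ⟨rfl, rfl, rfl, rfl⟩ := h
  rfl

/-- a set which contains the other names -/
noncomputable def badF (π : Par) : Finset GN :=
  ((Finset.univ : Finset Bool) ×ˢ Finset.range (2 * π.M)).image (fun z => GN.P z.1 z.2) ∪
  (((Finset.univ : Finset Bool) ×ˢ Finset.range π.M).image (fun z => GN.U z.1 z.2) ∪
  (((Finset.univ : Finset (Bool × Bool)) ×ˢ Finset.range (2 * π.M)).image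
    (fun z => GN.C z.1.1 z.2 z.1.2) ∪
  ((Finset.univ : Finset Bool).image GN.Q ∪
  ((Finset.range π.M).image (fun c => GN.D c 0) ∪
  ((Finset.range π.M).image (fun r => GN.D 0 r) ∪
  ((netA π).image (fun z => GN.F z.1 z.2) ∪
  ((stA π).image (fun z => GN.T z.1 z.2.1 z.2.2 0) ∪
  (stA π).image (fun z => GN.T z.1 z.2.1 z.2.2 (2 * π.l + 1)))))))))

theorem card_badF (π : Par) : (badF π).card ≤ 16 * π.M + 2 + (netA π).card +
    2 * (stA π).card := by
  unfold badF
  set Z1 := ((Finset.univ : Finset Bool) ×ˢ Finset.range (2 * π.M)).image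
    (fun z => GN.P z.1 z.2) with hZ1
  set Z2 := ((Finset.univ : Finset Bool) ×ˢ Finset.range π.M).image
    (fun z => GN.U z.1 z.2) with hZ2
  set Z3 := ((Finset.univ : Finset (Bool × Bool)) ×ˢ Finset.range (2 * π.M)).image
    (fun z => GN.C z.1.1 z.2 z.1.2) with hZ3
  set Z4 := (Finset.univ : Finset Bool).image GN.Q with hZ4
  set Z5 := (Finset.range π.M).image (fun c => GN.D c 0) with hZ5
  set Z6 := (Finset.range π.M).image (fun r => GN.D 0 r) with hZ6
  set Z7 := (netA π).image (fun z => GN.F z.1 z.2) with hZ7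
  set Z8 := (stA π).image (fun z => GN.T z.1 z.2.1 z.2.2 0) with hZ8
  set Z9 := (stA π).image (fun z => GN.T z.1 z.2.1 z.2.2 (2 * π.l + 1)) with hZ9
  have c1 : Z1.card ≤ 2 * (2 * π.M) := by
    refine Finset.card_image_le.trans ?_
    simp
  have c2 : Z2.card ≤ 2 * π.M := by
    refine Finset.card_image_le.trans ?_
    simp
  have c3 : Z3.card ≤ 4 * (2 * π.M) := by
    refine Finset.card_image_le.trans ?_
    simp
  have c4 : Z4.card ≤ 2 := by
    refine Finset.card_image_le.trans ?_
    simp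
  have c5 : Z5.card ≤ π.M := by
    refine Finset.card_image_le.trans ?_
    simp
  have c6 : Z6.card ≤ π.M := by
    refine Finset.card_image_le.trans ?_
    simp
  have c7 : Z7.card ≤ (netA π).card := Finset.card_image_le
  have c8 : Z8.card ≤ (stA π).card := Finset.card_image_le
  have c9 : Z9.card ≤ (stA π).card := Finset.card_image_le
  have d1 := Finset.card_union_le Z1 (Z2 ∪ (Z3 ∪ (Z4 ∪ (Z5 ∪ (Z6 ∪ (Z7 ∪ (Z8 ∪ Z9)))))))
  have d2 := Finset.card_union_le Z2 (Z3 ∪ (Z4 ∪ (Z5 ∪ (Z6 ∪ (Z7 ∪ (Z8 ∪ Z9))))))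
  have d3 := Finset.card_union_le Z3 (Z4 ∪ (Z5 ∪ (Z6 ∪ (Z7 ∪ (Z8 ∪ Z9)))))
  have d4 := Finset.card_union_le Z4 (Z5 ∪ (Z6 ∪ (Z7 ∪ (Z8 ∪ Z9))))
  have d5 := Finset.card_union_le Z5 (Z6 ∪ (Z7 ∪ (Z8 ∪ Z9)))
  have d6 := Finset.card_union_le Z6 (Z7 ∪ (Z8 ∪ Z9))
  have d7 := Finset.card_union_le Z7 (Z8 ∪ Z9)
  have d8 := Finset.card_union_le Z8 Z9
  omega

theorem mem_badF {π : Par} {x : GN} (h : x.ok π) (hg : ¬ Gd π x) : x ∈ badF π := by
  unfold badF
  simp only [Finset.mem_union]
  cases x with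
  | P σ j =>
    refine Or.inl ?_
    rw [Finset.mem_image]
    refine ⟨(σ, j), ?_, rfl⟩
    simp only [Finset.mem_product, Finset.mem_univ, Finset.mem_range, true_and]
    exact h
  | U σ j =>
    refine Or.inr (Or.inl ?_)
    rw [Finset.mem_image]
    refine ⟨(σ, j), ?_, rfl⟩
    simp only [Finset.mem_product, Finset.mem_univ, Finset.mem_range, true_and]
    exact h
  | C σ j ε =>
    refine Or.inr (Or.inr (Or.inl ?_))
    rw [Finset.mem_image]
    refine ⟨((σ, ε), j), ?_, rfl⟩
    have hx' : j + 1 < 2 * π.M := h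
    simp only [Finset.mem_product, Finset.mem_univ, Finset.mem_range, true_and]
    omega
  | Q ε =>
    refine Or.inr (Or.inr (Or.inr (Or.inl ?_)))
    rw [Finset.mem_image]
    exact ⟨ε, Finset.mem_univ _, rfl⟩
  | D c r =>
    obtain ⟨h1, h2, h3⟩ := h
    by_cases h0 : r = 0
    · subst h0
      refine Or.inr (Or.inr (Or.inr (Or.inr (Or.inl ?_))))
      rw [Finset.mem_image]
      exact ⟨c, Finset.mem_range.2 h1, rfl⟩
    · have hc : c = 0 := by omega
      subst hc
      refine Or.inr (Or.inr (Or.inr (Or.inr (Or.inr (Or.inl ?_)))))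
      rw [Finset.mem_image]
      exact ⟨r, Finset.mem_range.2 h2, rfl⟩
  | F x y =>
    refine Or.inr (Or.inr (Or.inr (Or.inr (Or.inr (Or.inr (Or.inl ?_))))))
    rw [Finset.mem_image]
    exact ⟨(x, y), (mem_netA π x y).2 h, rfl⟩
  | T k x y t =>
    obtain ⟨h1, h2⟩ := h
    have h3 : t = 0 ∨ t = 2 * π.l + 1 := by
      by_contra hcon
      exact hg ⟨h1, by omega, by omega⟩
    rcases h3 with h3 | h3
    · refine Or.inr (Or.inr (Or.inr (Or.inr (Or.inr (Or.inr (Or.inr (Or.inl ?_)))))))
      rw [Finset.mem_image]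
      exact ⟨(k, x, y), (mem_stA π k x y).2 h1, by rw [h3]⟩
    · refine Or.inr (Or.inr (Or.inr (Or.inr (Or.inr (Or.inr (Or.inr (Or.inr ?_)))))))
      rw [Finset.mem_image]
      exact ⟨(k, x, y), (mem_stA π k x y).2 h1, by rw [h3]⟩

/-- the names are finitely many -/
theorem ok_finite (π : Par) : {x : GN | x.ok π}.Finite := by
  classical
  refine Set.Finite.subset (Finset.finite_toSet (goodF π ∪ badF π)) ?_
  intro x hx
  rw [Finset.mem_coe, Finset.mem_union]
  by_cases hg : Gd π x
  · exact Or.inl ((mem_goodF π x).2 hg)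
  · exact Or.inr (mem_badF hx hg)

instance (π : Par) : Finite {x : GN // x.ok π} := ok_finite π

/-- the number of the names -/
noncomputable def numA (π : Par) : ℕ := {x : GN | x.ok π}.ncard

/-- the number of the good names -/
noncomputable def numG (π : Par) : ℕ := {x : GN | Gd π x}.ncard

/-- the number of the other names -/
noncomputable def numB (π : Par) : ℕ := {x : GN | x.ok π ∧ ¬ Gd π x}.ncard

theorem numA_eq_card (π : Par) : numA π = Nat.card {x : GN // x.ok π} := rfl

theorem numG_eq (π : Par) : numG π = (stA π).card * (2 * π.l) := by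
  unfold numG
  rw [← card_goodF, ← Set.ncard_coe_finset]
  congr 1
  ext x
  rw [Finset.mem_coe, mem_goodF]
  rfl

theorem numB_le (π : Par) : numB π ≤ 16 * π.M + 2 + (netA π).card + 2 * (stA π).card := by
  unfold numB
  refine le_trans ?_ (card_badF π)
  rw [← Set.ncard_coe_finset]
  refine Set.ncard_le_ncard ?_ (Finset.finite_toSet _)
  intro x hx
  exact Finset.mem_coe.2 (mem_badF hx.1 hx.2)

theorem numA_eq (π : Par) : numA π = numG π + numB π := by
  unfold numA numG numB
  have f1 : {x : GN | Gd π x}.Finite := (ok_finite π).subset fun x hx => Gd.ok hx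
  have f2 : {x : GN | x.ok π ∧ ¬ Gd π x}.Finite := (ok_finite π).subset fun x hx => hx.1
  have hd : Disjoint {x : GN | Gd π x} {x : GN | x.ok π ∧ ¬ Gd π x} := by
    rw [Set.disjoint_left]
    intro x h1 h2
    exact h2.2 h1
  rw [← Set.ncard_union_eq hd f1 f2]
  congr 1
  ext x
  constructor
  · intro h
    by_cases hg : Gd π x
    · exact Or.inl hg
    · exact Or.inr ⟨h, hg⟩
  · rintro (h | h)
    · exact Gd.ok h
    · exact h.1

theorem one_le_numA (π : Par) : 1 ≤ numA π := by
  unfold numA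
  rw [Nat.one_le_iff_ne_zero]
  intro h
  rw [Set.ncard_eq_zero (ok_finite π)] at h
  have : GN.Q true ∈ ({x : GN | x.ok π} : Set GN) := trivial
  rw [h] at this
  exact this

end Pool.Agent.Helper68.RAC1
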