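import Pool.Agent.Helper68.RAC1.CountMain
import Pool.Agent.Helper59.DG3.Lower

/-!
# From the count of one drawing to the asymptotics

`m0 n`: the least number of edges of a maximal straight-line RAC graph with `n` vertices.
-/

set_option autoImplicit false

namespace Pool.Agent.Helper68.RAC1

open Pool.Agent.Helper58.DG3 (Par GN)
open Pool.Agent.Helper18.RAC Filter Topology

/-- `n = 2 + m + K A` with `K + 2 ≤ m ≤ K + A + 2` -/
theorem exists_split {n : ℕ} (A : ℕ) (hn : 4 ≤ n) : ∃ m K : ℕ, K + 2 ≤ m ∧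
    2 + m + K * A = n ∧ m ≤ K + A + 2 := by
  obtain ⟨K, hK⟩ : ∃ K, K = (n - 4) / (A + 1) := ⟨_, rfl⟩
  have k1 : K * (A + 1) ≤ n - 4 := by rw [hK]; exact Nat.div_mul_le_self _ _
  have k2 : n - 4 < (K + 1) * (A + 1) := by
    rw [hK]
    have := Nat.lt_mul_div_succ (n - 4) (show 0 < A + 1 by omega)
    rw [mul_comm] at this
    exact this
  have k3 : K * (A + 1) = K * A + K := by ring
  have k4 : (K + 1) * (A + 1) = K * A + K + A + 1 := by ring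
  exact ⟨n - 2 - K * A, K, by omega, by omega, by omega⟩

theorem one_le_numB (π : Par) : 1 ≤ numB π := by
  unfold numB
  rw [Nat.one_le_iff_ne_zero]
  intro h
  rw [Set.ncard_eq_zero ((ok_finite π).subset fun x hx => hx.1)] at h
  have : GN.Q true ∈ ({x : GN | x.ok π ∧ ¬ Gd π x} : Set GN) := ⟨trivial, id⟩
  rw [h] at this
  exact this

/-- the arithmetic of the last step -/
theorem edges_le {E n m K A g b e C₁ C₂ : ℕ} (hA : g ≤ A) (hb1 : 1 ≤ b)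
    (hb : e * b ≤ g) (hn : 2 + m + K * A = n) (hm : m ≤ K + A + 2)
    (hE : E ≤ K * g + C₁ * (2 + m + K * b + C₂ * A)) (hlarge : e * (4 + (C₂ + 1) * A) ≤ n) :
    e * E ≤ (e + 3 * C₁) * n := by
  have h1 : K * g ≤ n := by
    have : K * g ≤ K * A := Nat.mul_le_mul_left _ (by omega)
    omega
  have h2 : e * (K * b) ≤ n := by
    have e1 : e * (K * b) = K * (e * b) := by ring
    have e2 : K * (e * b) ≤ K * A := Nat.mul_le_mul_left _ (by omega)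
    omega
  have h3 : e * K ≤ n := by
    have e1 : e * 1 ≤ e * b := Nat.mul_le_mul_left _ hb1
    have e2 : K * e ≤ K * A := Nat.mul_le_mul_left _ (by omega)
    have e3 : e * K = K * e := by ring
    omega
  calc e * E ≤ e * (K * g + C₁ * (2 + m + K * b + C₂ * A)) := Nat.mul_le_mul_left _ hE
    _ ≤ e * (K * g + C₁ * (2 + (K + A + 2) + K * b + C₂ * A)) := by gcongr
    _ = e * (K * g) + C₁ * (e * K + e * (K * b) + e * (4 + (C₂ + 1) * A)) := by ring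
    _ ≤ e * n + C₁ * (n + n + n) := by gcongr
    _ = (e + 3 * C₁) * n := by ring

/-- **The last step.**  `P π`: the properties of the parameters which are used; `B π` a bound for
the number of the names which are not good. -/
theorem exists_sparse_of (C₁ C₂ : ℕ) (P : Par → Prop) (B : Par → ℕ)
    (hP : ∃ D₀ l₀ : ℕ, ∀ D, D₀ ≤ D → ∀ l, l₀ ≤ l → ∃ M₀ : ℕ, ∀ M, M₀ ≤ M →
      P ⟨D, l, M⟩ ∧ 1 ≤ B ⟨D, l, M⟩)
    (hB : ∀ e D l M : ℕ, 1 ≤ e → 144 * e + 6 ≤ D → 2 * e ≤ l →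
      1000 * (l + 1) * Nat.fib (2 * D + 2) ≤ M → e * B ⟨D, l, M⟩ ≤ numG ⟨D, l, M⟩)
    (hyp : ∀ π : Par, P π → ∀ n m K : ℕ, K + 2 ≤ m → 2 + m + K * numA π = n →
      ∃ H : SimpleGraph (Fin n), MaxRAC H ∧
        H.edgeSet.ncard ≤ K * numG π + C₁ * (2 + m + K * B π + C₂ * numA π))
    {ε : ℝ} (hε : 0 < ε) : ∃ n₀ : ℕ, ∀ n, n₀ ≤ n → ∃ H : SimpleGraph (Fin n), MaxRAC H ∧
      (H.edgeSet.ncard : ℝ) ≤ (1 + ε) * n := by
  obtain ⟨D₀, l₀, hP⟩ := hP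
  obtain ⟨e, he⟩ : ∃ e : ℕ, 3 * (C₁ : ℝ) / ε ≤ e := exists_nat_ge _
  obtain ⟨e', he'⟩ : ∃ e', e' = e + 1 := ⟨_, rfl⟩
  obtain ⟨M₀, hM₀⟩ := hP (max D₀ (144 * e' + 6)) (le_max_left _ _) (max l₀ (2 * e'))
    (le_max_left _ _)
  obtain ⟨M, hM⟩ : ∃ M, M = max M₀ (1000 * (max l₀ (2 * e') + 1) *
    Nat.fib (2 * max D₀ (144 * e' + 6) + 2)) := ⟨_, rfl⟩
  obtain ⟨π, hπ⟩ : ∃ π : Par, π = ⟨max D₀ (144 * e' + 6), max l₀ (2 * e'), M⟩ := ⟨_, rfl⟩
  have h1 : P π ∧ 1 ≤ B π := by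
    rw [hπ]
    exact hM₀ M (by rw [hM]; exact le_max_left _ _)
  have h2 : e' * B π ≤ numG π := by
    rw [hπ]
    exact hB _ _ _ _ (by omega) (le_max_right _ _) (le_max_right _ _)
      (by rw [hM]; exact le_max_right _ _)
  refine ⟨e' * (4 + (C₂ + 1) * numA π), fun n hn => ?_⟩
  have hn4 : 4 ≤ n := by
    refine le_trans ?_ hn
    have : 4 + (C₂ + 1) * numA π ≤ e' * (4 + (C₂ + 1) * numA π) :=
      Nat.le_mul_of_pos_left _ (by omega)
    omega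
  obtain ⟨m, K, k1, k2, k3⟩ := exists_split (numA π) hn4
  obtain ⟨H, hH, hE⟩ := hyp π h1.1 n m K k1 k2
  refine ⟨H, hH, ?_⟩
  have h3 := edges_le (by rw [numA_eq]; omega) h1.2 h2 k2 k3 hE hn
  have h4 : (e' : ℝ) * H.edgeSet.ncard ≤ (e' + 3 * C₁) * n := by exact_mod_cast h3
  have he0 : (0 : ℝ) < e' := by
    rw [he']
    positivity
  have h5 : 3 * (C₁ : ℝ) ≤ ε * e' := by
    rw [div_le_iff₀ hε] at he
    have : (e : ℝ) ≤ e' := by rw [he']; push_cast; linarith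
    nlinarith
  have h6 : (e' : ℝ) * H.edgeSet.ncard ≤ e' * ((1 + ε) * n) := by
    refine h4.trans ?_
    have : (3 * (C₁ : ℝ)) * n ≤ (ε * e') * n := mul_le_mul_of_nonneg_right h5 (Nat.cast_nonneg n)
    nlinarith
  exact le_of_mul_le_mul_left h6 he0

/-- the last step with the number `numB` of the names which are not good -/
theorem exists_sparse (C₁ C₂ : ℕ) (P : Par → Prop)
    (hP : ∃ D₀ l₀ : ℕ, ∀ D, D₀ ≤ D → ∀ l, l₀ ≤ l → ∃ M₀ : ℕ, ∀ M, M₀ ≤ M → P ⟨D, l, M⟩)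
    (hyp : ∀ π : Par, P π → ∀ n m K : ℕ, K + 2 ≤ m → 2 + m + K * numA π = n →
      ∃ H : SimpleGraph (Fin n), MaxRAC H ∧
        H.edgeSet.ncard ≤ K * numG π + C₁ * (2 + m + K * numB π + C₂ * numA π))
    {ε : ℝ} (hε : 0 < ε) : ∃ n₀ : ℕ, ∀ n, n₀ ≤ n → ∃ H : SimpleGraph (Fin n), MaxRAC H ∧
      (H.edgeSet.ncard : ℝ) ≤ (1 + ε) * n := by
  obtain ⟨D₀, l₀, hP⟩ := hP
  refine exists_sparse_of C₁ C₂ P numB ⟨D₀, l₀, fun D hD l hl => ?_⟩
    (fun e D l M he hD hl hM => numB_small he hD hl hM) hyp hε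
  obtain ⟨M₀, hM₀⟩ := hP D hD l hl
  exact ⟨M₀, fun M hM => ⟨hM₀ M hM, one_le_numB _⟩⟩

/-- the least number of edges of a maximal straight-line RAC graph with `n` vertices -/
noncomputable def m0 (n : ℕ) : ℕ :=
  sInf {e : ℕ | ∃ G : SimpleGraph (Fin n), MaxRAC G ∧ G.edgeSet.ncard = e}

/-- the lower bound `n - 1` and the upper bound `(1 + ε) n` give `m0 n ∼ n` -/
theorem tendsto_m0 (h : ∀ ε : ℝ, 0 < ε → ∃ n₀ : ℕ, ∀ n, n₀ ≤ n → ∃ H : SimpleGraph (Fin n),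
    MaxRAC H ∧ (H.edgeSet.ncard : ℝ) ≤ (1 + ε) * n) :
    Tendsto (fun n : ℕ => (m0 n : ℝ) / n) atTop (𝓝 1) := by
  rw [Metric.tendsto_atTop]
  intro ε hε
  obtain ⟨n₀, hn₀⟩ := h (ε / 2) (by positivity)
  obtain ⟨n₁, hn₁⟩ : ∃ n₁ : ℕ, 2 / ε ≤ n₁ := exists_nat_ge _
  refine ⟨max n₀ (max n₁ 1), fun n hn => ?_⟩
  have h1 : n₀ ≤ n := le_trans (le_max_left _ _) hn
  have h2 : n₁ ≤ n := le_trans (le_trans (le_max_left _ _) (le_max_right _ _)) hn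
  have h3 : 1 ≤ n := le_trans (le_trans (le_max_right _ _) (le_max_right _ _)) hn
  have hn0 : (0 : ℝ) < n := by exact_mod_cast h3
  obtain ⟨H, hH, hle⟩ := hn₀ n h1
  have hne : {e : ℕ | ∃ G : SimpleGraph (Fin n), MaxRAC G ∧ G.edgeSet.ncard = e}.Nonempty :=
    ⟨_, H, hH, rfl⟩
  have up : (m0 n : ℝ) ≤ (1 + ε / 2) * n := by
    have : m0 n ≤ H.edgeSet.ncard := Nat.sInf_le ⟨H, hH, rfl⟩
    exact le_trans (by exact_mod_cast this) hle
  have low : (n : ℝ) ≤ m0 n + 1 := by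
    obtain ⟨G, hG, he⟩ := Nat.sInf_mem hne
    have := Pool.Agent.Helper59.DG3.maxRAC_card_fin hG
    rw [he] at this
    exact_mod_cast this
  rw [Real.dist_eq, abs_lt]
  have h4 : 2 ≤ ε * n := by
    rw [div_le_iff₀ hε] at hn₁
    have : (n₁ : ℝ) ≤ n := by exact_mod_cast h2
    nlinarith
  constructor
  · rw [lt_sub_iff_add_lt, lt_div_iff₀ hn0]
    nlinarith
  · rw [sub_lt_iff_lt_add, div_lt_iff₀ hn0]
    nlinarith

end Pool.Agent.Helper68.RAC1
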