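import Pool.Agent.Helper68.RAC1.Count

/-!
# The number of names, estimates
-/

set_option autoImplicit false

namespace Pool.Agent.Helper68.RAC1

open Pool.Agent.Helper58.DG3 (Par GN)

theorem card_netA_le (π : Par) :
    π.R * (netA π).card ≤ 3 * π.M ^ 2 + 5 * (π.M * π.R) := by
  classical
  have hR : 0 < π.R := RN_pos π.D
  obtain ⟨b, hb⟩ : ∃ b, b = π.M / π.R + 1 := ⟨_, rfl⟩
  have hb1 : b * π.R ≤ π.M + π.R := by
    rw [hb, Nat.add_mul, one_mul]
    exact Nat.add_le_add_right (Nat.div_mul_le_self _ _) _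
  have hb2 : π.M < b * π.R := by
    rw [hb, mul_comm]
    exact Nat.lt_mul_div_succ _ hR
  set Z : Finset (ℕ × ℕ) := (Finset.range π.M ×ˢ Finset.Ico 0 (0 + b * RN π.D)).filter
    (fun z : ℕ × ℕ => InL π.D ((z.1 : ℤ), (z.2 : ℤ))) with hZ
  have cZ : Z.card = π.M * b := by
    rw [hZ, card_box, Finset.card_range]
  have hmem : ∀ x y : ℕ, x < π.M → y < π.M → InL π.D ((x : ℤ), (y : ℤ)) → (x, y) ∈ Z := by
    intro x y h1 h2 h3
    rw [hZ, Finset.mem_filter]
    refine ⟨?_, h3⟩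
    simp only [Finset.mem_product, Finset.mem_range, Finset.mem_Ico]
    have e : b * RN π.D = b * π.R := rfl
    rw [e]
    omega
  have hsub : netA π ⊆ Z ∪ (Z.image (fun z => (z.1 + 1, z.2 + 1)) ∪
      (Z.image (fun z => (z.1 + 2, z.2 + 2)) ∪
      ((Finset.range π.M).image (fun y => (1, y)) ∪
        (Finset.range π.M).image (fun x => (x, 1))))) := by
    rintro ⟨x, y⟩ h
    obtain ⟨h1, h2, h3, h4⟩ := (mem_netA π x y).1 h
    simp only [Finset.mem_union, Finset.mem_image, Prod.mk.injEq]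
    rcases h4 with h4 | h4 | h4
    · exact Or.inl (hmem x y (by omega) (by omega) h4)
    · refine Or.inr (Or.inl ⟨(x - 1, y - 1), hmem _ _ (by omega) (by omega) ?_, by
        simp only; omega, by simp only; omega⟩)
      have e1 : ((x - 1 : ℕ) : ℤ) = (x : ℤ) - 1 := by omega
      have e2 : ((y - 1 : ℕ) : ℤ) = (y : ℤ) - 1 := by omega
      rw [e1, e2]
      exact h4
    · by_cases hx : x = 1
      · exact Or.inr (Or.inr (Or.inr (Or.inl ⟨y, Finset.mem_range.2 (by omega), hx.symm, rfl⟩)))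
      by_cases hy : y = 1
      · exact Or.inr (Or.inr (Or.inr (Or.inr ⟨x, Finset.mem_range.2 (by omega), rfl, hy.symm⟩)))
      refine Or.inr (Or.inr (Or.inl ⟨(x - 2, y - 2), hmem _ _ (by omega) (by omega) ?_, by
        simp only; omega, by simp only; omega⟩))
      have e1 : ((x - 2 : ℕ) : ℤ) = (x : ℤ) - 2 := by omega
      have e2 : ((y - 2 : ℕ) : ℤ) = (y : ℤ) - 2 := by omega
      rw [e1, e2]
      exact h4
  have c0 := Finset.card_le_card hsub
  have c1 : (Z.image (fun z => (z.1 + 1, z.2 + 1))).card ≤ Z.card := Finset.card_image_le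
  have c2 : (Z.image (fun z => (z.1 + 2, z.2 + 2))).card ≤ Z.card := Finset.card_image_le
  have c3 : ((Finset.range π.M).image (fun y => ((1 : ℕ), y))).card ≤ π.M := by
    refine Finset.card_image_le.trans ?_
    rw [Finset.card_range]
  have c4 : ((Finset.range π.M).image (fun x => (x, (1 : ℕ)))).card ≤ π.M := by
    refine Finset.card_image_le.trans ?_
    rw [Finset.card_range]
  have d1 := Finset.card_union_le Z (Z.image (fun z => (z.1 + 1, z.2 + 1)) ∪
      (Z.image (fun z => (z.1 + 2, z.2 + 2)) ∪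
      ((Finset.range π.M).image (fun y => (1, y)) ∪
        (Finset.range π.M).image (fun x => (x, 1)))))
  have d2 := Finset.card_union_le (Z.image (fun z => (z.1 + 1, z.2 + 1)))
      (Z.image (fun z => (z.1 + 2, z.2 + 2)) ∪
      ((Finset.range π.M).image (fun y => (1, y)) ∪
        (Finset.range π.M).image (fun x => (x, 1))))
  have d3 := Finset.card_union_le (Z.image (fun z => (z.1 + 2, z.2 + 2)))
      ((Finset.range π.M).image (fun y => (1, y)) ∪
        (Finset.range π.M).image (fun x => (x, 1)))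
  have d4 := Finset.card_union_le ((Finset.range π.M).image (fun y => (1, y)))
      ((Finset.range π.M).image (fun x => (x, 1)))
  have key : (netA π).card ≤ 3 * (π.M * b) + 2 * π.M := by omega
  calc π.R * (netA π).card ≤ π.R * (3 * (π.M * b) + 2 * π.M) := Nat.mul_le_mul_left _ key
    _ = 3 * (π.M * (b * π.R)) + 2 * (π.M * π.R) := by ring
    _ ≤ 3 * (π.M * (π.M + π.R)) + 2 * (π.M * π.R) := by
        have := Nat.mul_le_mul_left π.M hb1
        omega
    _ = 3 * π.M ^ 2 + 5 * (π.M * π.R) := by ring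

/-- `2 F_(2k+1) < F_(2D+2)` for `k < D` -/
theorem W_pos {π : Par} {k : ℕ} (hk : k + 1 ≤ π.D) : 0 < π.R - 2 * π.fx k := by
  have h1 : Nat.fib (2 * k + 1) ≤ Nat.fib (2 * π.D) := Nat.fib_mono (by omega)
  have h2 : Nat.fib (2 * π.D + 2) = Nat.fib (2 * π.D) + Nat.fib (2 * π.D + 1) := Nat.fib_add_two
  have h3 : Nat.fib (2 * π.D) < Nat.fib (2 * π.D + 1) := Nat.fib_lt_fib_succ (by omega)
  unfold Par.R Par.fx
  omega

theorem W_le (π : Par) (k : ℕ) : π.R - 2 * π.fx k ≤ π.R := Nat.sub_le _ _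

/-- the starts of one class -/
theorem exists_box (π : Par) {N : ℕ} (hN : 3 * π.G + 2 * N ≤ π.M) {k : ℕ} (hk : π.D < 2 * k)
    (hk2 : k + 2 ≤ π.D) : ∃ T : Finset (ℕ × ℕ), (∀ z ∈ T, π.St k z.1 z.2) ∧
      (N - (π.l + 1) * π.R) * (N - π.R) ≤ (π.l + 1) * π.R * T.card := by
  classical
  have hR : 0 < π.R := RN_pos π.D
  obtain ⟨W, hW⟩ : ∃ W, W = π.R - 2 * π.fx k := ⟨_, rfl⟩
  have hW0 : 0 < W := hW ▸ W_pos (by omega)
  have hWR : W ≤ π.R := hW ▸ W_le π k
  have hlW : 0 < (π.l + 1) * W := Nat.mul_pos (by omega) hW0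
  obtain ⟨q, hq⟩ : ∃ q, q = N / ((π.l + 1) * W) := ⟨_, rfl⟩
  obtain ⟨b, hb⟩ : ∃ b, b = N / π.R := ⟨_, rfl⟩
  have q1 : q * ((π.l + 1) * W) ≤ N := hq ▸ Nat.div_mul_le_self _ _
  have q2 : N < (q + 1) * ((π.l + 1) * W) := by
    rw [hq, mul_comm]
    exact Nat.lt_mul_div_succ _ hlW
  have b1 : b * π.R ≤ N := hb ▸ Nat.div_mul_le_self _ _
  have b2 : N < (b + 1) * π.R := by
    rw [hb, mul_comm]
    exact Nat.lt_mul_div_succ _ hR
  set s : Finset ℕ := (Finset.Ico π.G (π.G + q * ((π.l + 1) * W))).filter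
    (fun x : ℕ => (x / W) % (π.l + 1) = 0) with hs
  have cs : s.card = q * W := by
    rw [hs]
    exact card_slab hW0 π.l q π.G
  refine ⟨(s ×ˢ Finset.Ico π.G (π.G + b * RN π.D)).filter
    (fun z : ℕ × ℕ => InL π.D ((z.1 : ℤ), (z.2 : ℤ))), ?_, ?_⟩
  · rintro ⟨x, y⟩ h
    rw [Finset.mem_filter, Finset.mem_product, hs, Finset.mem_filter, Finset.mem_Ico,
      Finset.mem_Ico] at h
    simp only at h
    obtain ⟨⟨⟨⟨h1, h2⟩, h3⟩, h4, h5⟩, h6⟩ := h
    have e : b * RN π.D = b * π.R := rfl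
    rw [e] at h5
    refine ⟨⟨hk, by omega⟩, h6, h1, h4, by simp only; omega, ?_⟩
    simp only
    rw [← hW]
    exact h3
  · rw [card_box, cs]
    have e1 : N - (π.l + 1) * π.R ≤ (π.l + 1) * (q * W) := by
      have f1 : (q + 1) * ((π.l + 1) * W) = (π.l + 1) * (q * W) + (π.l + 1) * W := by ring
      have f2 : (π.l + 1) * W ≤ (π.l + 1) * π.R := Nat.mul_le_mul_left _ hWR
      omega
    have e2 : N - π.R ≤ π.R * b := by
      have f1 : (b + 1) * π.R = π.R * b + π.R := by ring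
      omega
    calc (N - (π.l + 1) * π.R) * (N - π.R) ≤ ((π.l + 1) * (q * W)) * (π.R * b) :=
          Nat.mul_le_mul e1 e2
      _ = (π.l + 1) * π.R * (q * W * b) := by ring

/-- the starts of all classes -/
theorem card_stA_ge (π : Par) {N : ℕ} (hN : 3 * π.G + 2 * N ≤ π.M) :
    (π.D - 2 - π.D / 2) * ((N - (π.l + 1) * π.R) * (N - π.R)) ≤
      (π.l + 1) * π.R * (stA π).card := by
  classical
  have hex : ∀ k, ∃ T : Finset (ℕ × ℕ), π.D < 2 * k ∧ k + 2 ≤ π.D →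
      (∀ z ∈ T, π.St k z.1 z.2) ∧
      (N - (π.l + 1) * π.R) * (N - π.R) ≤ (π.l + 1) * π.R * T.card := by
    intro k
    by_cases h : π.D < 2 * k ∧ k + 2 ≤ π.D
    · obtain ⟨T, hT⟩ := exists_box π hN h.1 h.2
      exact ⟨T, fun _ => hT⟩
    · exact ⟨∅, fun h' => absurd h' h⟩
  choose T hT using hex
  set I : Finset ℕ := Finset.Icc (π.D / 2 + 1) (π.D - 2) with hI
  have cI : I.card = π.D - 2 - π.D / 2 := by
    rw [hI, Nat.card_Icc]
    omega
  have hIk : ∀ k ∈ I, π.D < 2 * k ∧ k + 2 ≤ π.D := by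
    intro k hk
    rw [hI, Finset.mem_Icc] at hk
    omega
  have h1 : ∑ k ∈ I, (T k).card ≤ (stA π).card := by
    rw [← Finset.card_sigma]
    refine Finset.card_le_card_of_injOn (fun z => (z.1, z.2.1, z.2.2)) ?_ ?_
    · rintro ⟨k, x, y⟩ h
      rw [Finset.mem_coe, Finset.mem_sigma] at h
      exact (mem_stA π k x y).2 ((hT k (hIk k h.1)).1 (x, y) h.2)
    · rintro ⟨k, x, y⟩ _ ⟨k', x', y'⟩ _ h
      simp only [Prod.mk.injEq] at h
      obtain ⟨rfl, rfl, rfl⟩ := h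
      rfl
  have h2 : I.card • ((N - (π.l + 1) * π.R) * (N - π.R)) ≤
      ∑ k ∈ I, (π.l + 1) * π.R * (T k).card :=
    Finset.card_nsmul_le_sum _ _ _ (fun k hk => (hT k (hIk k hk)).2)
  rw [smul_eq_mul, cI, ← Finset.mul_sum] at h2
  exact h2.trans (Nat.mul_le_mul_left _ h1)

/-- a bound for the number of names which are not good -/
noncomputable def bnd (π : Par) : ℕ := 20 * π.M + (netA π).card + 2 * (stA π).card

/-- for large `D`, `l` and `M` the names which are not good are few -/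
theorem bnd_small {e D l M : ℕ} (he : 1 ≤ e) (hD : 144 * e + 6 ≤ D) (hl : 2 * e ≤ l)
    (hM : 1000 * (l + 1) * Nat.fib (2 * D + 2) ≤ M) :
    e * bnd ⟨D, l, M⟩ ≤ numG ⟨D, l, M⟩ := by
  obtain ⟨π, hπ⟩ : ∃ π : Par, π = ⟨D, l, M⟩ := ⟨_, rfl⟩
  rw [← hπ]
  have eD : π.D = D := by rw [hπ]
  have el : π.l = l := by rw [hπ]
  have eM : π.M = M := by rw [hπ]
  have eR : π.R = Nat.fib (2 * D + 2) := by rw [hπ]; rfl
  have hG : π.G = (4 * π.l + 8) * π.R := rfl
  rw [← eR] at hM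
  rw [← el] at hl hM
  rw [← eM] at hM
  rw [← eD] at hD
  clear hπ eD el eM eR
  obtain ⟨R, hR⟩ : ∃ R, R = π.R := ⟨_, rfl⟩
  have hR0 : 0 < R := hR ▸ RN_pos π.D
  obtain ⟨l', hl'⟩ : ∃ l', l' = π.l := ⟨_, rfl⟩
  obtain ⟨M', hM'⟩ : ∃ M', M' = π.M := ⟨_, rfl⟩
  obtain ⟨s, hs⟩ : ∃ s, s = (stA π).card := ⟨_, rfl⟩
  obtain ⟨t, ht⟩ : ∃ t, t = (netA π).card := ⟨_, rfl⟩
  have k1 : bnd π = 20 * π.M + (netA π).card + 2 * (stA π).card := rfl
  have k2 := numG_eq π
  have k3 := card_netA_le π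
  obtain ⟨N, hN⟩ : ∃ N, N = (M' - 3 * π.G) / 2 := ⟨_, rfl⟩
  have hlR : l' * R + R = (l' + 1) * R := by ring
  have hG' : π.G = 4 * (l' * R) + 8 * R := by rw [hG, ← hR, ← hl']; ring
  have hM2 : 1000 * (l' * R) + 1000 * R ≤ M' := by
    rw [← hl', ← hR, ← hM'] at hM
    have : 1000 * (l' + 1) * R = 1000 * (l' * R) + 1000 * R := by ring
    omega
  have hN2 : 3 * π.G + 2 * N ≤ π.M := by
    rw [← hM']
    omega
  have k4 := card_stA_ge π hN2
  rw [← hs, ← hR, ← hl'] at k4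
  rw [← hs, ← ht, ← hM'] at k1
  rw [← hs, ← hl'] at k2
  rw [← ht, ← hR, ← hM'] at k3
  rw [← hl'] at hl
  obtain ⟨P, hP⟩ : ∃ P, P = N - (l' + 1) * R := ⟨_, rfl⟩
  have hP3 : M' ≤ 3 * P := by
    rw [hP, ← hlR]
    omega
  have hP2 : P ≤ N - R := by
    rw [hP, ← hlR]
    omega
  have k5 : 72 * e * (P * P) ≤ (l' + 1) * R * s := by
    refine le_trans ?_ k4
    rw [← hP]
    exact Nat.mul_le_mul (by omega) (Nat.mul_le_mul_left _ hP2)
  have k6 : M' * M' ≤ 9 * (P * P) := by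
    have := Nat.mul_le_mul hP3 hP3
    have e1 : 3 * P * (3 * P) = 9 * (P * P) := by ring
    omega
  have k7 : 4 * (e * (M' * M')) ≤ l' * (R * s) := by
    have a1 : e * (M' * M') ≤ e * (9 * (P * P)) := Nat.mul_le_mul_left _ k6
    have a2 : 72 * e * (P * P) = 8 * (e * (9 * (P * P))) := by ring
    have a3 : (l' + 1) * R * s = l' * (R * s) + R * s := by ring
    have a4 : R * s ≤ l' * (R * s) := Nat.le_mul_of_pos_left _ (by omega)
    omega
  have k8 : 25 * (M' * R) ≤ M' * M' := by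
    have a1 : 25 * R ≤ M' := by omega
    have a2 := Nat.mul_le_mul_left M' a1
    have a3 : M' * (25 * R) = 25 * (M' * R) := by ring
    omega
  have k10 : 2 * e * (R * s) ≤ l' * (R * s) := Nat.mul_le_mul_right _ hl
  refine Nat.le_of_mul_le_mul_left ?_ hR0
  calc R * (e * bnd π) = e * (20 * (M' * R) + R * t) + 2 * e * (R * s) := by
        rw [k1]; ring
    _ ≤ e * (4 * (M' * M')) + 2 * e * (R * s) := by
        refine Nat.add_le_add_right (Nat.mul_le_mul_left _ ?_) _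
        have e1 : 3 * M' ^ 2 = 3 * (M' * M') := by ring
        omega
    _ = 4 * (e * (M' * M')) + 2 * e * (R * s) := by ring
    _ ≤ l' * (R * s) + l' * (R * s) := Nat.add_le_add k7 k10
    _ = R * numG π := by rw [k2]; ring

theorem numB_le_bnd {π : Par} (hM : 1 ≤ π.M) : numB π ≤ bnd π := by
  have h := numB_le π
  unfold bnd
  omega

theorem numB_small {e D l M : ℕ} (he : 1 ≤ e) (hD : 144 * e + 6 ≤ D) (hl : 2 * e ≤ l)
    (hM : 1000 * (l + 1) * Nat.fib (2 * D + 2) ≤ M) :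
    e * numB ⟨D, l, M⟩ ≤ numG ⟨D, l, M⟩ := by
  have h0 : 0 < Nat.fib (2 * D + 2) := Nat.fib_pos.2 (by omega)
  have h1 : 0 < 1000 * (l + 1) * Nat.fib (2 * D + 2) := Nat.mul_pos (by omega) h0
  exact (Nat.mul_le_mul_left _ (numB_le_bnd (π := ⟨D, l, M⟩) (show 1 ≤ M by omega))).trans
    (bnd_small he hD hl hM)

end Pool.Agent.Helper68.RAC1
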