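import Pool.Agent.Helper68.RAC1.Arith
import Pool.Agent.Helper49.DG3.Names

/-!
# The last step in the notation of the project
-/

set_option autoImplicit false

namespace Pool.Agent.Helper58.DG3

open Pool.Agent.Helper18.RAC Pool.Agent.Helper68.RAC1

theorem Par.A_eq_numA (π : Par) : π.A = numA π := rfl

/-- the number of the starts -/
noncomputable def Par.S (π : Par) : ℕ := Nat.card {z : ℕ × ℕ × ℕ // π.St z.1 z.2.1 z.2.2}

/-- the number of the points of the net -/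
noncomputable def Par.f (π : Par) : ℕ :=
  Nat.card {z : ℕ × ℕ // 1 ≤ z.1 ∧ 1 ≤ z.2 ∧ z.1 + z.2 + 3 ≤ π.M ∧
    InS π.D ((z.1 : ℤ), (z.2 : ℤ))}

theorem Par.S_eq (π : Par) : π.S = (stA π).card :=
  Nat.subtype_card _ (fun z => mem_stA π z.1 z.2.1 z.2.2)

theorem Par.f_eq (π : Par) : π.f = (netA π).card :=
  Nat.subtype_card _ (fun z => mem_netA π z.1 z.2)

theorem Par.numG_eq (π : Par) : numG π = 2 * π.l * π.S := by
  rw [Pool.Agent.Helper68.RAC1.numG_eq, Par.S_eq, mul_comm]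

theorem Par.bnd_eq (π : Par) : bnd π = 20 * π.M + π.f + 2 * π.S := by
  rw [Par.S_eq, Par.f_eq]
  rfl

/-- **The last step.** -/
theorem exists_asym_of (C₁ C₂ : ℕ)
    (hyp : ∀ π : Par, 4 ≤ π.D → 8 ≤ π.M → ∀ n m K : ℕ, K + 2 ≤ m → 2 + m + K * π.A = n →
      ∃ H : SimpleGraph (Fin n), MaxRAC H ∧
        H.edgeSet.ncard ≤ K * (2 * π.l) * π.S +
          C₁ * (2 + m + K * (20 * π.M + π.f + 2 * π.S) + C₂ * π.A)) :
    ∀ ε : ℝ, 0 < ε → ∃ n₀ : ℕ, ∀ n, n₀ ≤ n → ∃ H : SimpleGraph (Fin n), MaxRAC H ∧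
      (H.edgeSet.ncard : ℝ) ≤ (1 + ε) * n := by
  intro ε hε
  refine exists_sparse_of C₁ C₂ (fun π => 4 ≤ π.D ∧ 8 ≤ π.M) bnd ?_ ?_ ?_ hε
  · refine ⟨4, 0, fun D hD l _ => ⟨8, fun M hM => ⟨⟨hD, hM⟩, ?_⟩⟩⟩
    unfold bnd
    have : (⟨D, l, M⟩ : Par).M = M := rfl
    omega
  · intro e D l M he hD hl hM
    exact bnd_small he hD hl hM
  · intro π hπ n m K hm hn
    obtain ⟨H, hH, hE⟩ := hyp π hπ.1 hπ.2 n m K hm hn
    refine ⟨H, hH, hE.trans (le_of_eq ?_)⟩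
    rw [Par.bnd_eq, Par.numG_eq, Par.A_eq_numA]
    ring

/-- the same with the number of all names which are not good -/
theorem exists_asym_of' (C₁ C₂ : ℕ)
    (hyp : ∀ π : Par, 4 ≤ π.D → 8 ≤ π.M → ∀ n m K : ℕ, K + 2 ≤ m → 2 + m + K * π.A = n →
      ∃ H : SimpleGraph (Fin n), MaxRAC H ∧
        H.edgeSet.ncard ≤ K * numG π + C₁ * (2 + m + K * numB π + C₂ * π.A)) :
    ∀ ε : ℝ, 0 < ε → ∃ n₀ : ℕ, ∀ n, n₀ ≤ n → ∃ H : SimpleGraph (Fin n), MaxRAC H ∧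
      (H.edgeSet.ncard : ℝ) ≤ (1 + ε) * n := by
  intro ε hε
  exact exists_sparse C₁ C₂ (fun π => 4 ≤ π.D ∧ 8 ≤ π.M)
    ⟨4, 0, fun D hD l _ => ⟨8, fun M hM => ⟨hD, hM⟩⟩⟩
    (fun π hπ n m K hm hn => hyp π hπ.1 hπ.2 n m K hm hn) hε

end Pool.Agent.Helper58.DG3
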